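import Pool.Agent.T2H32.CM.Cop

set_option autoImplicit false

/-! # Asymptotics of the probability of a long gap in the model -/

open Filter Topology

namespace Pool.Agent.T2H32.CM

/-- probability that `k` is a random prime -/
noncomputable def θ (M k : ℕ) : ℝ :=
  if 3 ≤ k ∧ k.Coprime M then min 1 (μ M / Real.log k) else 0

/-- the gap length threshold -/
noncomputable def m (ψ : ℕ → ℝ) (k : ℕ) : ℕ := ⌈Real.log k ^ 2 + ψ k * Real.log k⌉₊

theorem θ_nonneg (M : ℕ) (hM : 0 < M) (k : ℕ) : 0 ≤ θ M k := by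
  unfold θ
  split_ifs with h
  · refine le_min zero_le_one ?_
    have := μ_one_le M hM
    have := Real.log_natCast_nonneg k
    positivity
  · exact le_rfl

theorem θ_le (M k : ℕ) : θ M k ≤ 1 := by
  unfold θ
  split_ifs with h
  · exact min_le_left _ _
  · exact zero_le_one

theorem θ_eq (M k : ℕ) (hM : 0 < M) (hk : 3 ≤ k) (hl : 2 * μ M ≤ Real.log k) :
    θ M k = χ M k * (μ M / Real.log k) := by
  have h1 := μ_one_le M hM
  have h2 : 0 < Real.log k := by linarith
  unfold θ χ
  by_cases h : k.Coprime M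
  · rw [if_pos ⟨hk, h⟩, if_pos h, one_mul, min_eq_right]
    rw [div_le_one h2]
    linarith
  · rw [if_neg (fun h' => h h'.2), if_neg h, zero_mul]

theorem tendsto_L : Tendsto (fun k : ℕ => Real.log k) atTop atTop :=
  Real.tendsto_log_atTop.comp tendsto_natCast_atTop_atTop

section
variable (ψ : ℕ → ℝ) (hψ : Tendsto (fun k : ℕ => ψ k / Real.log k) atTop (𝓝 0))
include hψ

theorem ev_nonneg : ∀ᶠ k : ℕ in atTop, 0 ≤ Real.log k ^ 2 + ψ k * Real.log k := by
  have h1 : ∀ᶠ k : ℕ in atTop, -1 < ψ k / Real.log k := hψ.eventually_const_lt (by norm_num)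
  filter_upwards [h1, tendsto_L.eventually_gt_atTop 0] with k h1 h2
  rw [lt_div_iff₀ h2] at h1
  nlinarith

/-- the rounding error -/
theorem ceil_err : ∀ᶠ k : ℕ in atTop, 0 ≤ (m ψ k : ℝ) - (Real.log k ^ 2 + ψ k * Real.log k) ∧
    (m ψ k : ℝ) - (Real.log k ^ 2 + ψ k * Real.log k) ≤ 1 := by
  filter_upwards [ev_nonneg ψ hψ] with k hk
  have h1 := Nat.le_ceil (Real.log k ^ 2 + ψ k * Real.log k)
  have h2 := Nat.ceil_lt_add_one hk
  unfold m
  constructor <;> linarith

theorem tendsto_e (M : ℕ) (hM : 0 < M) :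
    Tendsto (fun k : ℕ => μ M * C M k (m ψ k) / Real.log k - (Real.log k + ψ k)) atTop (𝓝 0) := by
  have h1 : Tendsto (fun k : ℕ => (2 * M * μ M + 1) / Real.log k) atTop (𝓝 0) :=
    tendsto_const_nhds.div_atTop tendsto_L
  refine squeeze_zero_norm' ?_ h1
  filter_upwards [ceil_err ψ hψ, tendsto_L.eventually_gt_atTop 0] with k hk hL
  have h2 := C_bound M hM k (m ψ k)
  have h3 : μ M * C M k (m ψ k) / Real.log k - (Real.log k + ψ k) =
      ((μ M * C M k (m ψ k) - m ψ k) + (m ψ k - (Real.log k ^ 2 + ψ k * Real.log k))) / Real.log k := by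
    field_simp
    ring
  rw [h3, Real.norm_eq_abs, abs_div, abs_of_pos hL]
  gcongr
  rw [abs_le] at h2 ⊢
  constructor <;> linarith [h2.1, h2.2, hk.1, hk.2]

theorem tendsto_mL : Tendsto (fun k : ℕ => (m ψ k : ℝ) / Real.log k ^ 2) atTop (𝓝 1) := by
  have h1 : Tendsto (fun k : ℕ => 1 / Real.log k ^ 2) atTop (𝓝 0) :=
    tendsto_const_nhds.div_atTop ((tendsto_pow_atTop (by norm_num)).comp tendsto_L)
  have h2 : Tendsto (fun k : ℕ => ((m ψ k : ℝ) - (Real.log k ^ 2 + ψ k * Real.log k)) / Real.log k ^ 2)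
      atTop (𝓝 0) := by
    refine squeeze_zero_norm' ?_ h1
    filter_upwards [ceil_err ψ hψ, tendsto_L.eventually_gt_atTop 0] with k hk hL
    rw [Real.norm_eq_abs, abs_div, abs_of_nonneg hk.1, abs_of_nonneg (by positivity)]
    gcongr
    exact hk.2
  have h3 := (h2.add hψ).add_const 1
  simp only [zero_add] at h3
  refine h3.congr' ?_
  filter_upwards [tendsto_L.eventually_gt_atTop 0] with k hL
  field_simp
  ring

theorem tendsto_CL (M : ℕ) (hM : 0 < M) :
    Tendsto (fun k : ℕ => μ M * C M k (m ψ k) / Real.log k ^ 2) atTop (𝓝 1) := by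
  have h1 : Tendsto (fun k : ℕ => (2 * M * μ M) / Real.log k ^ 2) atTop (𝓝 0) :=
    tendsto_const_nhds.div_atTop ((tendsto_pow_atTop (by norm_num)).comp tendsto_L)
  have h2 : Tendsto (fun k : ℕ => (μ M * C M k (m ψ k) - m ψ k) / Real.log k ^ 2) atTop (𝓝 0) := by
    refine squeeze_zero_norm' ?_ h1
    filter_upwards [tendsto_L.eventually_gt_atTop 0] with k hL
    have h2 := C_bound M hM k (m ψ k)
    rw [Real.norm_eq_abs, abs_div, abs_of_nonneg (by positivity : 0 ≤ Real.log k ^ 2)]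
    gcongr
  have h3 := h2.add (tendsto_mL ψ hψ)
  rw [zero_add] at h3
  refine h3.congr fun k => ?_
  ring

theorem tendsto_mk : Tendsto (fun k : ℕ => (m ψ k : ℝ) / k) atTop (𝓝 0) := by
  have h1 : Tendsto (fun k : ℕ => Real.log k ^ 2 / k) atTop (𝓝 0) := by
    have := (Real.isLittleO_pow_log_id_atTop (n := 2)).tendsto_div_nhds_zero
    exact this.comp tendsto_natCast_atTop_atTop
  have h2 := (tendsto_mL ψ hψ).mul h1
  rw [one_mul] at h2
  refine h2.congr' ?_
  filter_upwards [tendsto_L.eventually_gt_atTop 0] with k hL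
  field_simp

omit hψ in
theorem log_add_le : ∀ᶠ k : ℕ in atTop, Real.log (k + m ψ k : ℕ) ≤ Real.log k + m ψ k / k := by
  filter_upwards [eventually_gt_atTop 0] with k hk
  have hk0 : (0 : ℝ) < k := by exact_mod_cast hk
  have h1 : ((k + m ψ k : ℕ) : ℝ) = k * (1 + m ψ k / k) := by
    push_cast
    field_simp
  rw [h1, Real.log_mul hk0.ne' (by positivity)]
  have := Real.log_le_sub_one_of_pos (show (0 : ℝ) < 1 + m ψ k / k by positivity)
  linarith

theorem tendsto_LL : Tendsto (fun k : ℕ => Real.log (k + m ψ k : ℕ) / Real.log k) atTop (𝓝 1) := by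
  have h1 : Tendsto (fun k : ℕ => 1 + (m ψ k / k : ℝ) / Real.log k) atTop (𝓝 1) := by
    have h2 := (tendsto_mk ψ hψ).mul (tendsto_inv_atTop_zero.comp tendsto_L)
    have h3 := h2.const_add 1
    simp only [mul_zero, add_zero] at h3
    refine h3.congr fun k => ?_
    simp [div_eq_mul_inv]
  refine tendsto_of_tendsto_of_tendsto_of_le_of_le' tendsto_const_nhds h1 ?_ ?_
  · filter_upwards [tendsto_L.eventually_gt_atTop 0, eventually_gt_atTop 0] with k hL hk
    rw [le_div_iff₀ hL, one_mul]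
    refine Real.log_le_log (by exact_mod_cast hk) ?_
    push_cast
    have : (0 : ℝ) ≤ m ψ k := Nat.cast_nonneg _
    linarith
  · filter_upwards [tendsto_L.eventually_gt_atTop 0, log_add_le ψ] with k hL h
    rw [div_le_iff₀ hL]
    have : (1 + (m ψ k / k : ℝ) / Real.log k) * Real.log k = Real.log k + m ψ k / k := by
      field_simp
    rw [this]
    exact h

omit hψ in
/-- the sum of the powers of the densities over a gap -/
theorem sum_bounds (M : ℕ) (r : ℕ) : ∀ᶠ k : ℕ in atTop,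
    C M k (m ψ k) / Real.log (k + m ψ k : ℕ) ^ r ≤
      ∑ j ∈ Finset.Ioc k (k + m ψ k), χ M j * (1 / Real.log j ^ r) ∧
    ∑ j ∈ Finset.Ioc k (k + m ψ k), χ M j * (1 / Real.log j ^ r) ≤
      C M k (m ψ k) / Real.log k ^ r := by
  filter_upwards [tendsto_L.eventually_gt_atTop 0, eventually_gt_atTop 0] with k hL hk
  have hk0 : (0 : ℝ) < k := by exact_mod_cast hk
  unfold C
  rw [Finset.sum_div, Finset.sum_div]
  constructor
  · refine Finset.sum_le_sum fun j hj => ?_
    rw [Finset.mem_Ioc] at hj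
    have h1 : (k : ℝ) ≤ j := by exact_mod_cast hj.1.le
    have h2 : (j : ℝ) ≤ ((k + m ψ k : ℕ) : ℝ) := by exact_mod_cast hj.2
    have h3 : 0 < Real.log j := hL.trans_le (Real.log_le_log hk0 h1)
    have h4 : Real.log j ≤ Real.log (k + m ψ k : ℕ) := Real.log_le_log (hk0.trans_le h1) h2
    rw [mul_one_div]
    exact div_le_div_of_nonneg_left (χ_nonneg M j) (by positivity) (by gcongr)
  · refine Finset.sum_le_sum fun j hj => ?_
    rw [Finset.mem_Ioc] at hj
    have h1 : (k : ℝ) ≤ j := by exact_mod_cast hj.1.le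
    have h3 : Real.log k ≤ Real.log j := (Real.log_le_log hk0 h1)
    rw [mul_one_div]
    exact div_le_div_of_nonneg_left (χ_nonneg M j) (by positivity) (by gcongr)

theorem tendsto_T1 (M : ℕ) (hM : 0 < M) :
    Tendsto (fun k : ℕ => μ M * ∑ j ∈ Finset.Ioc k (k + m ψ k), χ M j * (1 / Real.log j ^ 1) -
      (Real.log k + ψ k)) atTop (𝓝 0) := by
  have hμ := μ_one_le M hM
  have hup := tendsto_e ψ hψ M hM
  have hlo : Tendsto (fun k : ℕ => (μ M * C M k (m ψ k) / Real.log k - (Real.log k + ψ k)) -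
      (μ M * C M k (m ψ k) / Real.log k ^ 2) * (m ψ k / k)) atTop (𝓝 0) := by
    have := hup.sub ((tendsto_CL ψ hψ M hM).mul (tendsto_mk ψ hψ))
    simpa using this
  refine tendsto_of_tendsto_of_tendsto_of_le_of_le' hlo hup ?_ ?_
  · filter_upwards [sum_bounds ψ M 1, log_add_le ψ, tendsto_L.eventually_gt_atTop 0,
      eventually_gt_atTop 0] with k hk hla hL hk0
    have h1 := hk.1
    have hk1 : (0 : ℝ) < k := by exact_mod_cast hk0
    have hC := C_nonneg M k (m ψ k)
    have h2 : μ M * C M k (m ψ k) / Real.log k - (μ M * C M k (m ψ k) / Real.log k ^ 2) * (m ψ k / k) ≤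
        μ M * (C M k (m ψ k) / Real.log (k + m ψ k : ℕ) ^ 1) := by
      have h3 : Real.log k ≤ Real.log (k + m ψ k : ℕ) :=
        Real.log_le_log hk1 (by push_cast; linarith [(Nat.cast_nonneg (m ψ k) : (0 : ℝ) ≤ m ψ k)])
      have h4 : 0 < Real.log (k + m ψ k : ℕ) := hL.trans_le h3
      set L := Real.log k
      set L' := Real.log (k + m ψ k : ℕ)
      set t : ℝ := m ψ k / k
      have ht : 0 ≤ t := by positivity
      have h5 : 1 / L - 1 / L ^ 2 * t ≤ 1 / L' := by
        have e : 1 / L - 1 / L ^ 2 * t = (L - t) / L ^ 2 := by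
          field_simp
        rw [e, div_le_div_iff₀ (by positivity) h4]
        rcases le_or_gt (L - t) 0 with h | h
        · nlinarith
        · nlinarith
      calc μ M * C M k (m ψ k) / L - (μ M * C M k (m ψ k) / L ^ 2) * t =
          (μ M * C M k (m ψ k)) * (1 / L - 1 / L ^ 2 * t) := by ring
        _ ≤ (μ M * C M k (m ψ k)) * (1 / L') := by gcongr
        _ = μ M * (C M k (m ψ k) / L' ^ 1) := by ring
    have h6 : μ M * (C M k (m ψ k) / Real.log (k + m ψ k : ℕ) ^ 1) ≤
        μ M * ∑ j ∈ Finset.Ioc k (k + m ψ k), χ M j * (1 / Real.log j ^ 1) := by gcongr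
    linarith
  · filter_upwards [sum_bounds ψ M 1] with k hk
    have h2 : μ M * ∑ j ∈ Finset.Ioc k (k + m ψ k), χ M j * (1 / Real.log j ^ 1) ≤
        μ M * (C M k (m ψ k) / Real.log k ^ 1) := by
      have := hk.2
      gcongr
    have : μ M * (C M k (m ψ k) / Real.log k ^ 1) = μ M * C M k (m ψ k) / Real.log k := by ring
    linarith

theorem tendsto_T2 (M : ℕ) (hM : 0 < M) :
    Tendsto (fun k : ℕ => μ M ^ 2 * ∑ j ∈ Finset.Ioc k (k + m ψ k), χ M j * (1 / Real.log j ^ 2))
      atTop (𝓝 (μ M)) := by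
  have hμ := μ_one_le M hM
  have hup : Tendsto (fun k : ℕ => μ M * (μ M * C M k (m ψ k) / Real.log k ^ 2)) atTop (𝓝 (μ M)) := by
    simpa using (tendsto_CL ψ hψ M hM).const_mul (μ M)
  have hlo : Tendsto (fun k : ℕ => μ M * (μ M * C M k (m ψ k) / Real.log k ^ 2) /
      (Real.log (k + m ψ k : ℕ) / Real.log k) ^ 2) atTop (𝓝 (μ M)) := by
    have h := hup.div ((tendsto_LL ψ hψ).pow 2) (by norm_num)
    rw [one_pow, div_one] at h
    exact h
  refine tendsto_of_tendsto_of_tendsto_of_le_of_le' hlo hup ?_ ?_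
  · filter_upwards [sum_bounds ψ M 2, tendsto_L.eventually_gt_atTop 0,
      eventually_gt_atTop 0] with k hk hL hk0
    have hk1 : (0 : ℝ) < k := by exact_mod_cast hk0
    have h3 : Real.log k ≤ Real.log (k + m ψ k : ℕ) :=
        Real.log_le_log hk1 (by push_cast; linarith [(Nat.cast_nonneg (m ψ k) : (0 : ℝ) ≤ m ψ k)])
    have h4 : 0 < Real.log (k + m ψ k : ℕ) := hL.trans_le h3
    have h1 : μ M * (μ M * C M k (m ψ k) / Real.log k ^ 2) /
      (Real.log (k + m ψ k : ℕ) / Real.log k) ^ 2 =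
        μ M ^ 2 * (C M k (m ψ k) / Real.log (k + m ψ k : ℕ) ^ 2) := by
      field_simp
    rw [h1]
    have := hk.1
    gcongr
  · filter_upwards [sum_bounds ψ M 2] with k hk
    have h1 : μ M * (μ M * C M k (m ψ k) / Real.log k ^ 2) =
        μ M ^ 2 * (C M k (m ψ k) / Real.log k ^ 2) := by ring
    rw [h1]
    have := hk.2
    gcongr

theorem tendsto_T3 (M : ℕ) (hM : 0 < M) :
    Tendsto (fun k : ℕ => μ M ^ 3 * ∑ j ∈ Finset.Ioc k (k + m ψ k), χ M j * (1 / Real.log j ^ 3))
      atTop (𝓝 0) := by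
  have hμ := μ_one_le M hM
  have hup : Tendsto (fun k : ℕ => μ M ^ 2 * (μ M * C M k (m ψ k) / Real.log k ^ 2) *
      (1 / Real.log k)) atTop (𝓝 0) := by
    have h1 := (tendsto_CL ψ hψ M hM).const_mul (μ M ^ 2)
    have h2 : Tendsto (fun k : ℕ => 1 / Real.log k) atTop (𝓝 0) :=
      tendsto_const_nhds.div_atTop tendsto_L
    simpa using h1.mul h2
  refine tendsto_of_tendsto_of_tendsto_of_le_of_le' tendsto_const_nhds hup ?_ ?_
  · filter_upwards [tendsto_L.eventually_gt_atTop 0, eventually_gt_atTop 0] with k hL hk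
    have hk1 : (0 : ℝ) < k := by exact_mod_cast hk
    refine mul_nonneg (by positivity) (Finset.sum_nonneg fun j hj => ?_)
    rw [Finset.mem_Ioc] at hj
    have h1 : (k : ℝ) ≤ j := by exact_mod_cast hj.1.le
    have h3 : 0 < Real.log j := hL.trans_le (Real.log_le_log hk1 h1)
    have := χ_nonneg M j
    positivity
  · filter_upwards [sum_bounds ψ M 3] with k hk
    have h1 : μ M ^ 2 * (μ M * C M k (m ψ k) / Real.log k ^ 2) * (1 / Real.log k) =
        μ M ^ 3 * (C M k (m ψ k) / Real.log k ^ 3) := by ring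
    rw [h1]
    have := hk.2
    gcongr

omit hψ in
theorem log_bd (x : ℝ) (h0 : 0 ≤ x) (h1 : x ≤ 1 / 2) : |-Real.log (1 - x) - (x + x ^ 2 / 2)| ≤ 2 * x ^ 3 := by
  have h := Real.abs_log_sub_add_sum_range_le (x := x) (by rw [abs_of_nonneg h0]; linarith) 2
  rw [abs_of_nonneg h0] at h
  simp only [Finset.sum_range_succ, Finset.sum_range_zero] at h
  norm_num at h
  have e : |-Real.log (1 - x) - (x + x ^ 2 / 2)| = |x + x ^ 2 / 2 + Real.log (1 - x)| := by
    rw [← abs_neg]
    congr 1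
    ring
  rw [e]
  refine h.trans ?_
  rw [div_le_iff₀ (by linarith)]
  have : 0 ≤ x ^ 3 := by positivity
  nlinarith

/-- **The probability that the gap after `k` is long.** -/
theorem tendsto_prod (M : ℕ) (hM : 0 < M) :
    Tendsto (fun k : ℕ => (∏ j ∈ Finset.Ioc k (k + m ψ k), (1 - θ M j)) *
      Real.exp (Real.log k + ψ k + μ M / 2)) atTop (𝓝 1) := by
  have hμ := μ_one_le M hM
  -- the error in the exponent
  have hR : Tendsto (fun k : ℕ => (∑ j ∈ Finset.Ioc k (k + m ψ k), -Real.log (1 - θ M j)) -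
      (Real.log k + ψ k + μ M / 2)) atTop (𝓝 0) := by
    have hA : Tendsto (fun k : ℕ =>
        (μ M * ∑ j ∈ Finset.Ioc k (k + m ψ k), χ M j * (1 / Real.log j ^ 1) - (Real.log k + ψ k)) +
        ((μ M ^ 2 * ∑ j ∈ Finset.Ioc k (k + m ψ k), χ M j * (1 / Real.log j ^ 2)) - μ M) / 2)
        atTop (𝓝 0) := by
      have h1 := tendsto_T1 ψ hψ M hM
      have h2 := ((tendsto_T2 ψ hψ M hM).sub_const (μ M)).div_const 2
      simpa using h1.add h2
    have hB := (tendsto_T3 ψ hψ M hM).const_mul 2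
    rw [mul_zero] at hB
    have hC : Tendsto (fun k : ℕ => ((∑ j ∈ Finset.Ioc k (k + m ψ k), -Real.log (1 - θ M j)) -
      (Real.log k + ψ k + μ M / 2)) - 
        ((μ M * ∑ j ∈ Finset.Ioc k (k + m ψ k), χ M j * (1 / Real.log j ^ 1) - (Real.log k + ψ k)) +
        ((μ M ^ 2 * ∑ j ∈ Finset.Ioc k (k + m ψ k), χ M j * (1 / Real.log j ^ 2)) - μ M) / 2))
        atTop (𝓝 0) := by
      refine squeeze_zero_norm' ?_ hB
      filter_upwards [tendsto_L.eventually_ge_atTop (2 * μ M), eventually_ge_atTop 3] with k hL hk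
      have hk1 : (0 : ℝ) < k := by exact_mod_cast (by omega : 0 < k)
      have e : ((∑ j ∈ Finset.Ioc k (k + m ψ k), -Real.log (1 - θ M j)) -
          (Real.log k + ψ k + μ M / 2)) - 
          ((μ M * ∑ j ∈ Finset.Ioc k (k + m ψ k), χ M j * (1 / Real.log j ^ 1) -
            (Real.log k + ψ k)) +
          ((μ M ^ 2 * ∑ j ∈ Finset.Ioc k (k + m ψ k), χ M j * (1 / Real.log j ^ 2)) - μ M) / 2) =
          ∑ j ∈ Finset.Ioc k (k + m ψ k), (-Real.log (1 - θ M j) -
            (θ M j + θ M j ^ 2 / 2)) := by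
        have e1 : ∀ j ∈ Finset.Ioc k (k + m ψ k), θ M j = χ M j * (μ M / Real.log j) := by
          intro j hj
          rw [Finset.mem_Ioc] at hj
          have h1 : (k : ℝ) ≤ j := by exact_mod_cast hj.1.le
          exact θ_eq M j hM (by omega) (hL.trans (Real.log_le_log hk1 h1))
        have e2 : ∑ j ∈ Finset.Ioc k (k + m ψ k), θ M j =
            μ M * ∑ j ∈ Finset.Ioc k (k + m ψ k), χ M j * (1 / Real.log j ^ 1) := by
          rw [Finset.mul_sum]
          refine Finset.sum_congr rfl fun j hj => ?_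
          rw [e1 j hj]
          ring
        have e3 : ∑ j ∈ Finset.Ioc k (k + m ψ k), θ M j ^ 2 / 2 =
            (μ M ^ 2 * ∑ j ∈ Finset.Ioc k (k + m ψ k), χ M j * (1 / Real.log j ^ 2)) / 2 := by
          rw [Finset.mul_sum, Finset.sum_div]
          refine Finset.sum_congr rfl fun j hj => ?_
          rw [e1 j hj, mul_pow, χ_sq]
          ring
        rw [Finset.sum_sub_distrib, Finset.sum_add_distrib, e2, e3]
        ring
      rw [e, Real.norm_eq_abs]
      refine (Finset.abs_sum_le_sum_abs _ _).trans ?_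
      rw [Finset.mul_sum, Finset.mul_sum]
      refine Finset.sum_le_sum fun j hj => ?_
      rw [Finset.mem_Ioc] at hj
      have h1 : (k : ℝ) ≤ j := by exact_mod_cast hj.1.le
      have h2 : 2 * μ M ≤ Real.log j := hL.trans (Real.log_le_log hk1 h1)
      have h3 : 0 < Real.log j := by linarith
      have h4 := θ_eq M j hM (by omega) h2
      have h5 : θ M j ≤ 1 / 2 := by
        rw [h4]
        have : μ M / Real.log j ≤ 1 / 2 := by
          rw [div_le_div_iff₀ h3 (by norm_num)]
          linarith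
        calc χ M j * (μ M / Real.log j) ≤ 1 * (1 / 2) :=
              mul_le_mul (χ_le M j) this (by positivity) zero_le_one
          _ = 1 / 2 := by ring
      refine (log_bd _ (θ_nonneg M hM j) h5).trans_eq ?_
      rw [h4, mul_pow, χ_cube]
      ring
    simpa using hC.add hA
  have h1 := hR.neg
  rw [neg_zero] at h1
  have h2 := (Real.continuous_exp.tendsto 0).comp h1
  rw [Real.exp_zero] at h2
  refine h2.congr' ?_
  filter_upwards [tendsto_L.eventually_ge_atTop (2 * μ M), eventually_ge_atTop 3] with k hL hk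
  have hk1 : (0 : ℝ) < k := by exact_mod_cast (by omega : 0 < k)
  have e1 : ∀ j ∈ Finset.Ioc k (k + m ψ k), (1 - θ M j) = Real.exp (Real.log (1 - θ M j)) := by
    intro j hj
    rw [Finset.mem_Ioc] at hj
    have h1 : (k : ℝ) ≤ j := by exact_mod_cast hj.1.le
    have h2 : 2 * μ M ≤ Real.log j := hL.trans (Real.log_le_log hk1 h1)
    have h3 : 0 < Real.log j := by linarith
    have h4 := θ_eq M j hM (by omega) h2
    have h5 : θ M j ≤ 1 / 2 := by
      rw [h4]
      have : μ M / Real.log j ≤ 1 / 2 := by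
        rw [div_le_div_iff₀ h3 (by norm_num)]
        linarith
      calc χ M j * (μ M / Real.log j) ≤ 1 * (1 / 2) :=
            mul_le_mul (χ_le M j) this (by positivity) zero_le_one
        _ = 1 / 2 := by ring
    rw [Real.exp_log (by linarith)]
  simp only [Function.comp_apply]
  rw [Finset.prod_congr rfl e1, ← Real.exp_sum, ← Real.exp_add]
  congr 1
  rw [Finset.sum_neg_distrib]
  ring

end

end Pool.Agent.T2H32.CM
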