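import Mathlib

set_option autoImplicit false

/-! # Counting integers prime to a fixed modulus -/

open Filter Topology

namespace Pool.Agent.T2H32.CM

/-- indicator of the integers prime to `M` -/
noncomputable def χ (M k : ℕ) : ℝ := if k.Coprime M then 1 else 0

/-- `M / φ(M)` -/
noncomputable def μ (M : ℕ) : ℝ := (M : ℝ) / M.totient

theorem χ_nonneg (M k : ℕ) : 0 ≤ χ M k := by unfold χ; split_ifs <;> norm_num
theorem χ_le (M k : ℕ) : χ M k ≤ 1 := by unfold χ; split_ifs <;> norm_num
theorem χ_sq (M k : ℕ) : χ M k ^ 2 = χ M k := by unfold χ; split_ifs <;> norm_num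
theorem χ_cube (M k : ℕ) : χ M k ^ 3 = χ M k := by unfold χ; split_ifs <;> norm_num

theorem μ_one_le (M : ℕ) (hM : 0 < M) : 1 ≤ μ M := by
  unfold μ
  have h : (0 : ℝ) < M.totient := by exact_mod_cast Nat.totient_pos.2 hM
  rw [le_div_iff₀ h, one_mul]
  exact_mod_cast Nat.totient_le M

theorem block (M n : ℕ) : ∑ k ∈ Finset.Ico n (n + M), χ M k = M.totient := by
  unfold χ
  rw [Finset.sum_boole, ← Nat.filter_coprime_Ico_eq_totient M n]
  congr 2
  ext x
  simp [Nat.coprime_comm]

/-- the discrepancy -/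
noncomputable def D (M n : ℕ) : ℝ := ∑ k ∈ Finset.range n, (χ M k - 1 / μ M)

theorem D_add (M : ℕ) (hM : 0 < M) (n : ℕ) : D M (n + M) = D M n := by
  have h0 : (0 : ℝ) < M.totient := by exact_mod_cast Nat.totient_pos.2 hM
  have hM' : (0 : ℝ) < M := by exact_mod_cast hM
  unfold D
  rw [← Finset.sum_range_add_sum_Ico _ (Nat.le_add_right n M)]
  have h : ∑ k ∈ Finset.Ico n (n + M), (χ M k - 1 / μ M) = 0 := by
    rw [Finset.sum_sub_distrib, block, Finset.sum_const, Nat.card_Ico, nsmul_eq_mul]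
    unfold μ
    simp only [add_tsub_cancel_left]
    field_simp
    ring
  rw [h, add_zero]

theorem D_mod (M : ℕ) (hM : 0 < M) (n : ℕ) : D M n = D M (n % M) := by
  have : ∀ q r : ℕ, D M (r + M * q) = D M r := by
    intro q r
    induction q with
    | zero => simp
    | succ q ih => rw [Nat.mul_succ, ← add_assoc, D_add M hM, ih]
  conv_lhs => rw [← Nat.mod_add_div n M]
  exact this _ _

theorem D_bound (M : ℕ) (hM : 0 < M) (n : ℕ) : |D M n| ≤ M := by
  rw [D_mod M hM]
  have h1 : (1 : ℝ) ≤ μ M := μ_one_le M hM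
  have h2 : 0 < 1 / μ M := by positivity
  have h3 : 1 / μ M ≤ 1 := by
    rw [div_le_one (by positivity)]
    exact h1
  calc |D M (n % M)| ≤ ∑ k ∈ Finset.range (n % M), |χ M k - 1 / μ M| := Finset.abs_sum_le_sum_abs _ _
    _ ≤ ∑ k ∈ Finset.range (n % M), (1 : ℝ) := by
        refine Finset.sum_le_sum fun k _ => ?_
        rw [abs_le]
        have := χ_nonneg M k
        have := χ_le M k
        constructor <;> linarith
    _ = ((n % M : ℕ) : ℝ) := by simp
    _ ≤ M := by exact_mod_cast (Nat.mod_lt n hM).le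

/-- number of integers prime to `M` in `(k, k + m]` -/
noncomputable def C (M k m : ℕ) : ℝ := ∑ j ∈ Finset.Ioc k (k + m), χ M j

theorem C_bound (M : ℕ) (hM : 0 < M) (k m : ℕ) : |μ M * C M k m - m| ≤ 2 * M * μ M := by
  have h1 : (1 : ℝ) ≤ μ M := μ_one_le M hM
  have h2 : C M k m - m * (1 / μ M) = D M (k + m + 1) - D M (k + 1) := by
    unfold D C
    rw [← Finset.sum_range_add_sum_Ico _ (show k + 1 ≤ k + m + 1 by omega), add_sub_cancel_left,
      Finset.sum_sub_distrib, Finset.sum_const, Nat.card_Ico, nsmul_eq_mul]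
    have e : Finset.Ioc k (k + m) = Finset.Ico (k + 1) (k + m + 1) := by
      ext x
      simp only [Finset.mem_Ioc, Finset.mem_Ico]
      omega
    rw [e]
    congr 3
    omega
  have h3 : |C M k m - m * (1 / μ M)| ≤ 2 * M := by
    rw [h2]
    have e1 := D_bound M hM (k + m + 1)
    have e2 := D_bound M hM (k + 1)
    rw [abs_le] at e1 e2 ⊢
    constructor <;> linarith [e1.1, e1.2, e2.1, e2.2]
  have h4 : μ M * C M k m - m = μ M * (C M k m - m * (1 / μ M)) := by
    have : μ M ≠ 0 := by positivity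
    field_simp
  rw [h4, abs_mul, abs_of_nonneg (by positivity : 0 ≤ μ M)]
  nlinarith

theorem C_nonneg (M k m : ℕ) : 0 ≤ C M k m := Finset.sum_nonneg fun _ _ => χ_nonneg _ _

/-- for `f` antitone and nonnegative tending to zero the sum over the integers prime to `M` is
`φ(M)/M` times the full sum up to a convergent error -/
theorem sum_cop (M : ℕ) (hM : 0 < M) (f : ℕ → ℝ) (hf : Antitone f) (h0 : Tendsto f atTop (𝓝 0)) :
    ∃ l : ℝ, Tendsto (fun n => ∑ k ∈ Finset.range n, f k * (χ M k - 1 / μ M)) atTop (𝓝 l) := by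
  have := Antitone.cauchySeq_series_mul_of_tendsto_zero_of_bounded (f := f)
    (z := fun k => χ M k - 1 / μ M) (b := M) hf h0 (fun n => by
      rw [Real.norm_eq_abs]
      exact D_bound M hM n)
  obtain ⟨l, hl⟩ := cauchySeq_tendsto_of_complete this
  exact ⟨l, by simpa using hl⟩

end Pool.Agent.T2H32.CM
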