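import Mathlib

set_option autoImplicit false

/-! # Independent events with prescribed probabilities exist -/

open MeasureTheory ProbabilityTheory
open scoped ENNReal NNReal

namespace Pool.Agent.T2H32.CM

theorem exists_indep (t : ℕ → ℝ) (h0 : ∀ k, 0 ≤ t k) (h1 : ∀ k, t k ≤ 1) :
    ∃ (Ω : Type) (_ : MeasurableSpace Ω) (P : Measure Ω) (A : ℕ → Set Ω),
      (∀ k, MeasurableSet (A k)) ∧ iIndepSet A P ∧ ∀ k, P.real (A k) = t k := by
  classical
  set ν : ℕ → Measure Bool := fun k => bernoulliMeasure true false ⟨t k, h0 k, h1 k⟩ with hν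
  have hνp : ∀ k, IsProbabilityMeasure (ν k) := fun k => by
    simp only [hν]
    infer_instance
  refine ⟨ℕ → Bool, inferInstance, Measure.infinitePi ν, fun k => {ω | ω k = true}, ?_, ?_, ?_⟩
  · intro k
    exact (measurable_pi_apply (X := fun _ : ℕ => Bool) k) (measurableSet_singleton true)
  · rw [iIndepSet_iff]
    intro s f hf
    have h2 : iIndepFun (fun (i : ℕ) (ω : ℕ → Bool) => ω i) (Measure.infinitePi ν) :=
      iIndepFun_infinitePi (P := ν) (X := fun _ x => x) (fun _ => measurable_id)
    refine h2.meas_biInter fun i hi => ?_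
    have h3 : MeasurableSpace.generateFrom {{ω : ℕ → Bool | ω i = true}} ≤
        MeasurableSpace.comap (fun ω : ℕ → Bool => ω i) inferInstance := by
      refine MeasurableSpace.generateFrom_le ?_
      rintro u rfl
      exact ⟨{true}, measurableSet_singleton true, rfl⟩
    exact h3 _ (hf i hi)
  · intro k
    have h2 : (Measure.infinitePi ν) {ω | ω k = true} = ν k {true} := by
      rw [← Measure.infinitePi_map_eval ν k, Measure.map_apply (measurable_pi_apply k)
        (measurableSet_singleton true)]
      rfl
    rw [measureReal_def, h2, ← measureReal_def]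
    simp only [hν]
    rw [bernoulliMeasure_real_apply_of_mem_of_notMem _ (measurableSet_singleton true) rfl (by simp)]

end Pool.Agent.T2H32.CM
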