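import Pool.Agent.T2H32.CM.Model

set_option autoImplicit false

/-! # The sums `∑ 1 / (k log k)` and `∑ 1 / (k log k (log log k) ^ c)` over integers prime to `M` -/

open Filter Topology

namespace Pool.Agent.T2H32.CM

/-- sums over the integers prime to `M` of an eventually antitone function -/
theorem sum_cop' (M : ℕ) (hM : 0 < M) (h : ℕ → ℝ) (K : ℕ) (hK : ∀ a b, K ≤ a → a ≤ b → h b ≤ h a)
    (h0 : Tendsto h atTop (𝓝 0)) :
    ∃ l : ℝ, Tendsto (fun n => ∑ k ∈ Finset.range n, h k * (χ M k - 1 / μ M)) atTop (𝓝 l) := by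
  set f : ℕ → ℝ := fun k => h (max k K) with hf
  have hfa : Antitone f := by
    intro a b hab
    exact hK _ _ (le_max_right _ _) (max_le_max_right _ hab)
  have hft : Tendsto f atTop (𝓝 0) := by
    refine h0.congr' ?_
    filter_upwards [eventually_ge_atTop K] with k hk
    simp only [hf, max_eq_left hk]
  obtain ⟨l, hl⟩ := sum_cop M hM f hfa hft
  have h1 : ∀ n, K ≤ n → ∑ k ∈ Finset.range n, h k * (χ M k - 1 / μ M) =
      ∑ k ∈ Finset.range n, f k * (χ M k - 1 / μ M) +
        ∑ k ∈ Finset.range K, (h k - f k) * (χ M k - 1 / μ M) := by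
    intro n hn
    have h2 : ∑ k ∈ Finset.range K, (h k - f k) * (χ M k - 1 / μ M) =
        ∑ k ∈ Finset.range n, (h k - f k) * (χ M k - 1 / μ M) := by
      refine Finset.sum_subset (Finset.range_subset_range.2 hn) fun k _ hk => ?_
      rw [Finset.mem_range, not_lt] at hk
      simp only [hf, max_eq_left hk, sub_self, zero_mul]
    rw [h2, ← Finset.sum_add_distrib]
    refine Finset.sum_congr rfl fun k _ => ?_
    ring
  refine ⟨l + ∑ k ∈ Finset.range K, (h k - f k) * (χ M k - 1 / μ M), ?_⟩
  refine (hl.add_const _).congr' ?_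
  filter_upwards [eventually_ge_atTop K] with n hn
  rw [h1 n hn]

theorem log3_pos : 1 < Real.log 3 := by
  rw [Real.lt_log_iff_exp_lt (by norm_num)]
  exact Real.exp_one_lt_d9.trans (by norm_num)

theorem log_gt_one (k : ℕ) (hk : 3 ≤ k) : 1 < Real.log k :=
  log3_pos.trans_le (Real.log_le_log (by norm_num) (by exact_mod_cast hk))

/-- `log log` increments -/
theorem ll_upper (k : ℕ) (hk : 3 ≤ k) :
    Real.log (Real.log (k + 1 : ℕ)) - Real.log (Real.log k) ≤ 1 / (k * Real.log k) := by
  have hk0 : (0 : ℝ) < k := by exact_mod_cast (by omega : 0 < k)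
  have hL := log_gt_one k hk
  have hL1 := log_gt_one (k + 1) (by omega)
  rw [← Real.log_div (by positivity) (by positivity)]
  refine (Real.log_le_sub_one_of_pos (by positivity)).trans ?_
  have h1 : Real.log (k + 1 : ℕ) - Real.log k ≤ 1 / k := by
    rw [← Real.log_div (by positivity) (by positivity)]
    refine (Real.log_le_sub_one_of_pos (by positivity)).trans_eq ?_
    push_cast
    field_simp
    ring
  have h2 : Real.log (k + 1 : ℕ) / Real.log k - 1 = (Real.log (k + 1 : ℕ) - Real.log k) / Real.log k := by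
    field_simp
  rw [h2, div_le_div_iff₀ (by positivity) (by positivity)]
  rw [le_div_iff₀ hk0] at h1
  nlinarith

theorem ll_lower (k : ℕ) (hk : 3 ≤ k) :
    1 / ((k + 1 : ℕ) * Real.log (k + 1 : ℕ)) ≤ Real.log (Real.log (k + 1 : ℕ)) - Real.log (Real.log k) := by
  have hk0 : (0 : ℝ) < k := by exact_mod_cast (by omega : 0 < k)
  have hL := log_gt_one k hk
  have hL1 := log_gt_one (k + 1) (by omega)
  have e : Real.log (Real.log (k + 1 : ℕ)) - Real.log (Real.log k) =
      - Real.log (Real.log k / Real.log (k + 1 : ℕ)) := by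
    rw [Real.log_div (by positivity) (by positivity)]
    ring
  rw [e]
  have h0 := Real.log_le_sub_one_of_pos (show 0 < Real.log k / Real.log (k + 1 : ℕ) by positivity)
  have h1 : 1 / ((k + 1 : ℕ) : ℝ) ≤ Real.log (k + 1 : ℕ) - Real.log k := by
    have e1 : Real.log (k + 1 : ℕ) - Real.log k = - Real.log ((k : ℝ) / (k + 1 : ℕ)) := by
      rw [Real.log_div (by positivity) (by positivity)]
      ring
    rw [e1]
    have h2 := Real.log_le_sub_one_of_pos (show 0 < (k : ℝ) / (k + 1 : ℕ) by positivity)
    have e2 : (k : ℝ) / (k + 1 : ℕ) - 1 = - (1 / ((k + 1 : ℕ) : ℝ)) := by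
      push_cast
      field_simp
      ring
    linarith
  have h3 : Real.log k / Real.log (k + 1 : ℕ) - 1 =
      - ((Real.log (k + 1 : ℕ) - Real.log k) / Real.log (k + 1 : ℕ)) := by
    field_simp
    ring
  have h4 : 1 / ((k + 1 : ℕ) * Real.log (k + 1 : ℕ)) ≤
      (Real.log (k + 1 : ℕ) - Real.log k) / Real.log (k + 1 : ℕ) := by
    rw [← div_div]
    gcongr
  linarith

/-- `∑_{3 ≤ k < n} 1 / (k log k)` -/
noncomputable def h1f (k : ℕ) : ℝ := if 3 ≤ k then 1 / (k * Real.log k) else 0

theorem sum_h1_bounds (n : ℕ) (hn : 3 ≤ n) :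
    Real.log (Real.log n) - Real.log (Real.log 3) ≤ ∑ k ∈ Finset.range n, h1f k ∧
    ∑ k ∈ Finset.range n, h1f k ≤ Real.log (Real.log n) - Real.log (Real.log 3) + 1 := by
  induction n, hn using Nat.le_induction with
  | base =>
    have : ∑ k ∈ Finset.range 3, h1f k = 0 := by
      refine Finset.sum_eq_zero fun k hk => ?_
      rw [Finset.mem_range] at hk
      unfold h1f
      rw [if_neg (by omega)]
    rw [this]
    norm_num
  | succ n hn ih =>
    constructor
    · rw [Finset.sum_range_succ]
      have h1 := ll_upper n hn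
      have h2 : h1f n = 1 / (n * Real.log n) := by unfold h1f; rw [if_pos hn]
      rw [h2]
      linarith [ih.1]
    · -- stronger induction needed: use the shifted bound
      have key : ∀ n : ℕ, 3 ≤ n → ∑ k ∈ Finset.range (n + 1), h1f k ≤
          Real.log (Real.log n) - Real.log (Real.log 3) + 1 / (3 * Real.log 3) := by
        intro n hn
        induction n, hn using Nat.le_induction with
        | base =>
          have : ∑ k ∈ Finset.range 3, h1f k = 0 := by
            refine Finset.sum_eq_zero fun k hk => ?_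
            rw [Finset.mem_range] at hk
            unfold h1f
            rw [if_neg (by omega)]
          rw [Finset.sum_range_succ, this]
          unfold h1f
          rw [if_pos le_rfl]
          norm_num
        | succ n hn ih =>
          rw [Finset.sum_range_succ]
          have h1 := ll_lower n hn
          have h2 : h1f (n + 1) = 1 / ((n + 1 : ℕ) * Real.log (n + 1 : ℕ)) := by
            unfold h1f; rw [if_pos (by omega)]
          rw [h2]
          linarith
      have h3 := key n hn
      have h4 : Real.log (Real.log n) ≤ Real.log (Real.log (n + 1 : ℕ)) := by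
        have hL := log_gt_one n hn
        refine Real.log_le_log (by linarith) (Real.log_le_log ?_ ?_)
        · exact_mod_cast (by omega : 0 < n)
        · push_cast
          linarith
      have h5 : 1 / (3 * Real.log 3) ≤ 1 := by
        have := log3_pos
        rw [div_le_one (by positivity)]
        linarith
      linarith

theorem tendsto_llog : Tendsto (fun n : ℕ => Real.log (Real.log n)) atTop atTop :=
  Real.tendsto_log_atTop.comp tendsto_L

theorem h1_ratio : Tendsto (fun n => (∑ k ∈ Finset.range n, h1f k) / Real.log (Real.log n)) atTop (𝓝 1) := by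
  have h1 : Tendsto (fun n : ℕ => 1 + (-Real.log (Real.log 3)) / Real.log (Real.log n)) atTop (𝓝 1) := by
    have := (tendsto_const_nhds (x := -Real.log (Real.log 3))).div_atTop tendsto_llog
    simpa using this.const_add 1
  have h2 : Tendsto (fun n : ℕ => 1 + (-Real.log (Real.log 3) + 1) / Real.log (Real.log n)) atTop (𝓝 1) := by
    have := (tendsto_const_nhds (x := -Real.log (Real.log 3) + 1)).div_atTop tendsto_llog
    simpa using this.const_add 1
  refine tendsto_of_tendsto_of_tendsto_of_le_of_le' h1 h2 ?_ ?_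
  · filter_upwards [eventually_ge_atTop 3, tendsto_llog.eventually_gt_atTop 0] with n hn hl
    rw [le_div_iff₀ hl]
    have := (sum_h1_bounds n hn).1
    have e : (1 + (-Real.log (Real.log 3)) / Real.log (Real.log n)) * Real.log (Real.log n) =
        Real.log (Real.log n) - Real.log (Real.log 3) := by
      field_simp
      ring
    rw [e]
    exact this
  · filter_upwards [eventually_ge_atTop 3, tendsto_llog.eventually_gt_atTop 0] with n hn hl
    rw [div_le_iff₀ hl]
    have := (sum_h1_bounds n hn).2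
    have e : (1 + (-Real.log (Real.log 3) + 1) / Real.log (Real.log n)) * Real.log (Real.log n) =
        Real.log (Real.log n) - Real.log (Real.log 3) + 1 := by
      field_simp
      ring
    rw [e]
    exact this

theorem h1f_anti (a b : ℕ) (ha : 3 ≤ a) (hab : a ≤ b) : h1f b ≤ h1f a := by
  unfold h1f
  rw [if_pos ha, if_pos (ha.trans hab)]
  have h1 := log_gt_one a ha
  have ha0 : (0 : ℝ) < a := by exact_mod_cast (by omega : 0 < a)
  have h2 : Real.log a ≤ Real.log b := Real.log_le_log ha0 (by exact_mod_cast hab)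
  have h3 : (a : ℝ) ≤ b := by exact_mod_cast hab
  gcongr

theorem h1f_zero : Tendsto h1f atTop (𝓝 0) := by
  have h1 : Tendsto (fun k : ℕ => 1 / (k * Real.log k)) atTop (𝓝 0) :=
    tendsto_const_nhds.div_atTop (tendsto_natCast_atTop_atTop.atTop_mul_atTop₀ tendsto_L)
  refine h1.congr' ?_
  filter_upwards [eventually_ge_atTop 3] with k hk
  unfold h1f
  rw [if_pos hk]

/-- the case `ψ = 0` -/
theorem G_zero (M : ℕ) (hM : 0 < M) :
    Tendsto (fun n : ℕ => G M (fun _ => 0) n / Real.log (Real.log n)) atTop (𝓝 (Real.exp (-(μ M / 2)))) := by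
  have hμ := μ_one_le M hM
  obtain ⟨l, hl⟩ := sum_cop' M hM h1f 3 h1f_anti h1f_zero
  have h1 : ∀ n, G M (fun _ => 0) n = (μ M * Real.exp (-(μ M / 2))) *
      (∑ k ∈ Finset.range n, h1f k * (χ M k - 1 / μ M) + (1 / μ M) * ∑ k ∈ Finset.range n, h1f k) := by
    intro n
    rw [Finset.mul_sum (a := 1 / μ M), ← Finset.sum_add_distrib, Finset.mul_sum]
    refine Finset.sum_congr rfl fun k _ => ?_
    unfold b h1f
    split_ifs
    · rw [neg_zero, Real.exp_zero]
      ring
    · ring
  have h2 : Tendsto (fun n : ℕ => (μ M * Real.exp (-(μ M / 2))) *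
      ((∑ k ∈ Finset.range n, h1f k * (χ M k - 1 / μ M)) / Real.log (Real.log n) +
        (1 / μ M) * ((∑ k ∈ Finset.range n, h1f k) / Real.log (Real.log n)))) atTop
      (𝓝 ((μ M * Real.exp (-(μ M / 2))) * (0 + (1 / μ M) * 1))) :=
    ((hl.div_atTop tendsto_llog).add (h1_ratio.const_mul _)).const_mul _
  have e : (μ M * Real.exp (-(μ M / 2))) * (0 + (1 / μ M) * 1) = Real.exp (-(μ M / 2)) := by
    field_simp
    ring
  rw [e] at h2
  refine h2.congr fun n => ?_
  rw [h1]
  ring

theorem G_zero_atTop (M : ℕ) (hM : 0 < M) : Tendsto (G M (fun _ => 0)) atTop atTop := by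
  have h1 := (G_zero M hM).pos_mul_atTop (Real.exp_pos _) tendsto_llog
  refine h1.congr' ?_
  filter_upwards [tendsto_llog.eventually_gt_atTop 0] with n hn
  field_simp

/-! ### `ψ = log log log` -/

/-- third iterated logarithm -/
noncomputable def l3 (k : ℕ) : ℝ := Real.log (Real.log (Real.log k))

theorem tendsto_l3 : Tendsto l3 atTop atTop := Real.tendsto_log_atTop.comp tendsto_llog

theorem l3_small (c : ℝ) : Tendsto (fun k : ℕ => c * l3 k / Real.log k) atTop (𝓝 0) := by
  have h1 : Tendsto (fun x : ℝ => Real.log (Real.log x) / x) atTop (𝓝 0) := by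
    have h2 : Tendsto (fun x : ℝ => Real.log x / x) atTop (𝓝 0) := by
      have := (Real.isLittleO_pow_log_id_atTop (n := 1)).tendsto_div_nhds_zero
      simpa using this
    refine squeeze_zero' ?_ ?_ h2
    · filter_upwards [eventually_ge_atTop (Real.exp 1)] with x hx
      have h3 : 1 ≤ Real.log x := by
        rw [Real.le_log_iff_exp_le ((Real.exp_pos 1).trans_le hx)]
        exact hx
      have h4 : 0 < x := (Real.exp_pos 1).trans_le hx
      have := Real.log_nonneg h3
      positivity
    · filter_upwards [eventually_ge_atTop (Real.exp 1)] with x hx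
      have h3 : 1 ≤ Real.log x := by
        rw [Real.le_log_iff_exp_le ((Real.exp_pos 1).trans_le hx)]
        exact hx
      have h4 : 0 < x := (Real.exp_pos 1).trans_le hx
      have h5 := Real.log_le_sub_one_of_pos (show 0 < Real.log x by linarith)
      have h6 := Real.log_le_sub_one_of_pos h4
      have h7 : Real.log (Real.log x) ≤ Real.log x := by linarith
      exact div_le_div_of_nonneg_right h7 h4.le
  have h2 := (h1.comp tendsto_L).const_mul c
  rw [mul_zero] at h2
  refine h2.congr fun k => ?_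
  simp only [Function.comp_apply, l3]
  ring

/-- `1 / (k log k log log k)` -/
noncomputable def h2f (k : ℕ) : ℝ := if 3 ≤ k then 1 / (k * Real.log k * Real.log (Real.log k)) else 0

theorem llog_pos (k : ℕ) (hk : 3 ≤ k) : 0 < Real.log (Real.log k) := Real.log_pos (log_gt_one k hk)

theorem h2f_anti (a b : ℕ) (ha : 3 ≤ a) (hab : a ≤ b) : h2f b ≤ h2f a := by
  unfold h2f
  rw [if_pos ha, if_pos (ha.trans hab)]
  have h1 := log_gt_one a ha
  have ha0 : (0 : ℝ) < a := by exact_mod_cast (by omega : 0 < a)
  have h2 : Real.log a ≤ Real.log b := Real.log_le_log ha0 (by exact_mod_cast hab)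
  have h3 : (a : ℝ) ≤ b := by exact_mod_cast hab
  have h4 : Real.log (Real.log a) ≤ Real.log (Real.log b) := Real.log_le_log (by linarith) h2
  have h5 := llog_pos a ha
  gcongr

theorem h2f_zero : Tendsto h2f atTop (𝓝 0) := by
  have h1 : Tendsto (fun k : ℕ => 1 / (k * Real.log k * Real.log (Real.log k))) atTop (𝓝 0) :=
    tendsto_const_nhds.div_atTop
      ((tendsto_natCast_atTop_atTop.atTop_mul_atTop₀ tendsto_L).atTop_mul_atTop₀ tendsto_llog)
  refine h1.congr' ?_
  filter_upwards [eventually_ge_atTop 3] with k hk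
  unfold h2f
  rw [if_pos hk]

theorem h2_lower (n : ℕ) (hn : 3 ≤ n) : l3 n - l3 3 ≤ ∑ k ∈ Finset.range n, h2f k := by
  induction n, hn using Nat.le_induction with
  | base =>
    have : ∑ k ∈ Finset.range 3, h2f k = 0 := by
      refine Finset.sum_eq_zero fun k hk => ?_
      rw [Finset.mem_range] at hk
      unfold h2f
      rw [if_neg (by omega)]
    rw [this]
    norm_num
  | succ n hn ih =>
    rw [Finset.sum_range_succ]
    have h1 := ll_upper n hn
    have h2 : h2f n = 1 / (n * Real.log n * Real.log (Real.log n)) := by unfold h2f; rw [if_pos hn]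
    have h3 := llog_pos n hn
    have h4 := llog_pos (n + 1) (by omega)
    have hL := log_gt_one n hn
    have hn0 : (0 : ℝ) < n := by exact_mod_cast (by omega : 0 < n)
    have h5 : l3 (n + 1) - l3 n ≤ h2f n := by
      unfold l3
      rw [← Real.log_div h4.ne' h3.ne']
      refine (Real.log_le_sub_one_of_pos (by positivity)).trans ?_
      have e : Real.log (Real.log (n + 1 : ℕ)) / Real.log (Real.log n) - 1 =
          (Real.log (Real.log (n + 1 : ℕ)) - Real.log (Real.log n)) / Real.log (Real.log n) := by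
        field_simp
      rw [e, h2, ← div_div]
      gcongr
    linarith

theorem exp_neg_l3 (k : ℕ) (hk : 3 ≤ k) : Real.exp (-l3 k) = 1 / Real.log (Real.log k) := by
  unfold l3
  rw [Real.exp_neg, Real.exp_log (llog_pos k hk), one_div]

theorem G_l3_atTop (M : ℕ) (hM : 0 < M) : Tendsto (G M l3) atTop atTop := by
  have hμ := μ_one_le M hM
  obtain ⟨l, hl⟩ := sum_cop' M hM h2f 3 h2f_anti h2f_zero
  have h1 : ∀ n, G M l3 n = (μ M * Real.exp (-(μ M / 2))) *
      (∑ k ∈ Finset.range n, h2f k * (χ M k - 1 / μ M) + (1 / μ M) * ∑ k ∈ Finset.range n, h2f k) := by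
    intro n
    rw [Finset.mul_sum (a := 1 / μ M), ← Finset.sum_add_distrib, Finset.mul_sum]
    refine Finset.sum_congr rfl fun k _ => ?_
    unfold b h2f
    split_ifs with hk
    · rw [exp_neg_l3 k hk]
      field_simp
      ring
    · ring
  have h2 : Tendsto (fun n => ∑ k ∈ Finset.range n, h2f k) atTop atTop := by
    refine tendsto_atTop_mono' atTop ?_ (tendsto_atTop_add_const_right _ (-l3 3) tendsto_l3)
    filter_upwards [eventually_ge_atTop 3] with n hn
    have := h2_lower n hn
    linarith
  have h3 : Tendsto (fun n => ∑ k ∈ Finset.range n, h2f k * (χ M k - 1 / μ M) +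
      (1 / μ M) * ∑ k ∈ Finset.range n, h2f k) atTop atTop :=
    hl.add_atTop (h2.const_mul_atTop (by positivity))
  have h4 := h3.const_mul_atTop (show 0 < μ M * Real.exp (-(μ M / 2)) by positivity)
  exact h4.congr fun n => (h1 n).symm

/-! ### `ψ = c log log log` with `c > 1` -/

theorem conc (ε y z : ℝ) (hε : 0 < ε) (hy : 0 < y) (hz : 0 < z) :
    (z - y) * z ^ (-1 - ε) ≤ (y ^ (-ε) - z ^ (-ε)) / ε := by
  rw [le_div_iff₀ hε]
  have h1 : 1 - ε * (y / z - 1) ≤ (y / z) ^ (-ε) := by
    have hyz : 0 < y / z := by positivity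
    rw [Real.rpow_def_of_pos hyz]
    have h2 := Real.add_one_le_exp (Real.log (y / z) * -ε)
    have h3 := Real.log_le_sub_one_of_pos hyz
    nlinarith
  have h2 : (y / z) ^ (-ε) = y ^ (-ε) / z ^ (-ε) := Real.div_rpow hy.le hz.le _
  rw [h2] at h1
  have hzp : 0 < z ^ (-ε) := Real.rpow_pos_of_pos hz _
  rw [le_div_iff₀ hzp] at h1
  have h3 : z ^ (-1 - ε) = z ^ (-ε) / z := by
    rw [show -1 - ε = -ε - 1 by ring, Real.rpow_sub_one hz.ne']
  rw [h3]
  have h4 : (1 - ε * (y / z - 1)) * z ^ (-ε) = z ^ (-ε) + (z - y) * (z ^ (-ε) / z) * ε := by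
    field_simp
    ring
  linarith

theorem exp_neg_cl3 (ε : ℝ) (k : ℕ) (hk : 3 ≤ k) :
    Real.exp (-((1 + ε) * l3 k)) = Real.log (Real.log k) ^ (-1 - ε) := by
  rw [Real.rpow_def_of_pos (llog_pos k hk)]
  congr 1
  unfold l3
  ring

theorem G_c_bdd (M : ℕ) (hM : 0 < M) (ε : ℝ) (hε : 0 < ε) :
    ¬ Tendsto (G M (fun k => (1 + ε) * l3 k)) atTop atTop := by
  have hμ := μ_one_le M hM
  set c := μ M * Real.exp (-(μ M / 2)) with hc
  have hc0 : 0 < c := by positivity
  have key : ∀ n : ℕ, 3 ≤ n → G M (fun k => (1 + ε) * l3 k) (n + 1) ≤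
      G M (fun k => (1 + ε) * l3 k) 4 + c * ((Real.log (Real.log 3) ^ (-ε) -
        Real.log (Real.log n) ^ (-ε)) / ε) := by
    intro n hn
    induction n, hn using Nat.le_induction with
    | base => norm_num
    | succ n hn ih =>
      have h1 := ll_lower n hn
      have h3 := llog_pos n hn
      have h4 := llog_pos (n + 1) (by omega)
      have hL := log_gt_one (n + 1) (by omega)
      have h5 := conc ε _ _ hε h3 h4
      have h6 : b M (fun k => (1 + ε) * l3 k) (n + 1) ≤
          c * ((Real.log (Real.log (n + 1 : ℕ)) - Real.log (Real.log n)) *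
            Real.log (Real.log (n + 1 : ℕ)) ^ (-1 - ε)) := by
        unfold b
        rw [if_pos (by omega), exp_neg_cl3 ε (n + 1) (by omega), ← hc]
        have h7 := χ_le M (n + 1)
        have h8 := χ_nonneg M (n + 1)
        have h9 : 0 < Real.log (Real.log (n + 1 : ℕ)) ^ (-1 - ε) := Real.rpow_pos_of_pos h4 _
        have h10 : 0 < ((n + 1 : ℕ) : ℝ) := by positivity
        calc χ M (n + 1) * c * (Real.log (Real.log (n + 1 : ℕ)) ^ (-1 - ε) /
              ((n + 1 : ℕ) * Real.log (n + 1 : ℕ)))
            ≤ 1 * c * (Real.log (Real.log (n + 1 : ℕ)) ^ (-1 - ε) /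
              ((n + 1 : ℕ) * Real.log (n + 1 : ℕ))) := by gcongr
          _ = c * ((1 / ((n + 1 : ℕ) * Real.log (n + 1 : ℕ))) *
              Real.log (Real.log (n + 1 : ℕ)) ^ (-1 - ε)) := by ring
          _ ≤ _ := by gcongr
      have h7 : G M (fun k => (1 + ε) * l3 k) (n + 1 + 1) =
          G M (fun k => (1 + ε) * l3 k) (n + 1) + b M (fun k => (1 + ε) * l3 k) (n + 1) := by
        unfold G
        rw [Finset.sum_range_succ]
      rw [h7]
      have h8 : c * ((Real.log (Real.log (n + 1 : ℕ)) - Real.log (Real.log n)) *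
            Real.log (Real.log (n + 1 : ℕ)) ^ (-1 - ε)) ≤ c * ((Real.log (Real.log n) ^ (-ε) -
              Real.log (Real.log (n + 1 : ℕ)) ^ (-ε)) / ε) := by gcongr
      have h9 : c * ((Real.log (Real.log 3) ^ (-ε) - Real.log (Real.log (n + 1 : ℕ)) ^ (-ε)) / ε) =
          c * ((Real.log (Real.log 3) ^ (-ε) - Real.log (Real.log n) ^ (-ε)) / ε) +
          c * ((Real.log (Real.log n) ^ (-ε) - Real.log (Real.log (n + 1 : ℕ)) ^ (-ε)) / ε) := by ring
      rw [h9]
      linarith
  intro hcon
  obtain ⟨n, hn1, hn2⟩ := ((hcon.eventually_gt_atTop (G M (fun k => (1 + ε) * l3 k) 4 +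
    c * (Real.log (Real.log 3) ^ (-ε) / ε))).and (eventually_ge_atTop 3)).exists
  have h1 := key n hn2
  have h2 := G_mono M hM (fun k => (1 + ε) * l3 k) (Nat.le_succ n)
  have h3 : 0 < Real.log (Real.log n) ^ (-ε) := Real.rpow_pos_of_pos (llog_pos n hn2) _
  have h4 : c * ((Real.log (Real.log 3) ^ (-ε) - Real.log (Real.log n) ^ (-ε)) / ε) ≤
      c * (Real.log (Real.log 3) ^ (-ε) / ε) := by
    gcongr
    linarith
  simp only [Nat.succ_eq_add_one] at h2
  linarith

end Pool.Agent.T2H32.CM
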