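import Pool.Agent.T2H32.CM.Nth
import Pool.Agent.T2H32.CM.LogSum
import Pool.Agent.T2H32.CM.Exist

set_option autoImplicit false

/-! # Assembly -/

open MeasureTheory ProbabilityTheory Filter Topology
open scoped ENNReal

namespace Pool.Agent.T2H32.CM

variable {Ω : Type*} [MeasurableSpace Ω] {P : Measure Ω}

theorem small_zero : Tendsto (fun k : ℕ => (fun _ : ℕ => (0 : ℝ)) k / Real.log k) atTop (𝓝 0) := by
  simp

theorem inf_A [IsProbabilityMeasure P] (A : ℕ → Set Ω) (hA : ∀ k, MeasurableSet (A k))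
    (hind : iIndepSet A P) (M : ℕ) (hM : 0 < M) (hP : ∀ k, P.real (A k) = θ M k) :
    ∀ᵐ ω ∂P, {k | ω ∈ A k}.Infinite := by
  filter_upwards [strong_law A hA hind M hM hP _ small_zero (G_zero_atTop M hM)] with ω hω
  intro hfin
  have h1 : Tendsto (fun n => S (E A (fun _ => 0)) n ω) atTop atTop := by
    have h2 := hω.pos_mul_atTop one_pos (G_zero_atTop M hM)
    refine h2.congr' ?_
    filter_upwards [(G_zero_atTop M hM).eventually_gt_atTop 0] with n hn
    field_simp
  have h3 : ∀ n, S (E A (fun _ => 0)) n ω ≤ hfin.toFinset.card := by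
    intro n
    unfold S
    classical
    calc ∑ k ∈ Finset.range n, (E A (fun _ => 0) k).indicator (fun _ => (1 : ℝ)) ω
        ≤ ∑ k ∈ Finset.range n, (if ω ∈ A k then (1 : ℝ) else 0) := by
          refine Finset.sum_le_sum fun k _ => ?_
          by_cases h : ω ∈ E A (fun _ => 0) k
          · rw [Set.indicator_of_mem h, if_pos h.1]
          · rw [Set.indicator_of_notMem h]
            split_ifs <;> norm_num
      _ = (((Finset.range n).filter (fun k => ω ∈ A k)).card : ℝ) := by
          rw [Finset.sum_boole]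
      _ ≤ _ := by
          norm_cast
          refine Finset.card_le_card fun k hk => ?_
          rw [Finset.mem_filter] at hk
          rw [Set.Finite.mem_toFinset]
          exact hk.2
  obtain ⟨n, hn⟩ := (h1.eventually_gt_atTop (hfin.toFinset.card : ℝ)).exists
  exact absurd (h3 n) (not_le.2 hn)

theorem part_div [IsProbabilityMeasure P] (A : ℕ → Set Ω) (hA : ∀ k, MeasurableSet (A k))
    (hind : iIndepSet A P) (M : ℕ) (hM : 0 < M) (hP : ∀ k, P.real (A k) = θ M k) (ψ : ℕ → ℝ)
    (hψ : Tendsto (fun k : ℕ => ψ k / Real.log k) atTop (𝓝 0)) (hG : Tendsto (G M ψ) atTop atTop) :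
    ∀ᵐ ω ∂P, Tendsto (fun x : ℕ => ({n | Large A ψ ω n ∧ p A ω n ≤ x}.ncard : ℝ) / G M ψ (x + 1))
      atTop (𝓝 1) := by
  filter_upwards [inf_A A hA hind M hM hP, strong_law A hA hind M hM hP ψ hψ hG] with ω h1 h2
  refine (h2.comp (tendsto_add_atTop_nat 1)).congr fun x => ?_
  rw [Function.comp_apply, ← count_eq A ψ ω h1 x]

theorem part_conv [IsProbabilityMeasure P] (A : ℕ → Set Ω) (hA : ∀ k, MeasurableSet (A k))
    (hind : iIndepSet A P) (M : ℕ) (hM : 0 < M) (hP : ∀ k, P.real (A k) = θ M k) (ψ : ℕ → ℝ)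
    (hψ : Tendsto (fun k : ℕ => ψ k / Real.log k) atTop (𝓝 0)) (hG : ¬ Tendsto (G M ψ) atTop atTop) :
    ∀ᵐ ω ∂P, {n | Large A ψ ω n}.Finite := by
  filter_upwards [inf_A A hA hind M hM hP, conv_part A hA hind M hM hP ψ hψ hG] with ω h1 h2
  exact (finite_iff A ψ ω h1).2 h2

theorem part_zero [IsProbabilityMeasure P] (A : ℕ → Set Ω) (hA : ∀ k, MeasurableSet (A k))
    (hind : iIndepSet A P) (M : ℕ) (hM : 0 < M) (hP : ∀ k, P.real (A k) = θ M k) :
    ∀ᵐ ω ∂P, Tendsto (fun x : ℕ => ({n | Large A (fun _ => 0) ω n ∧ p A ω n ≤ x}.ncard : ℝ) /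
      Real.log (Real.log x)) atTop (𝓝 (Real.exp (-(μ M / 2)))) := by
  filter_upwards [part_div A hA hind M hM hP _ small_zero (G_zero_atTop M hM)] with ω h
  have h1 := (G_zero M hM).comp (tendsto_add_atTop_nat 1)
  have h2 : Tendsto (fun x : ℕ => Real.log (Real.log (x + 1 : ℕ)) / Real.log (Real.log x))
      atTop (𝓝 1) := by
    have h3 : Tendsto (fun x : ℕ => 1 + 1 / Real.log (Real.log x)) atTop (𝓝 1) := by
      have := (tendsto_const_nhds (x := (1 : ℝ))).div_atTop tendsto_llog
      simpa using this.const_add 1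
    refine tendsto_of_tendsto_of_tendsto_of_le_of_le' tendsto_const_nhds h3 ?_ ?_
    · filter_upwards [eventually_ge_atTop 3] with x hx
      have h4 := llog_pos x hx
      have h5 := log_gt_one x hx
      rw [le_div_iff₀ h4, one_mul]
      refine Real.log_le_log (by linarith) (Real.log_le_log ?_ ?_)
      · exact_mod_cast (by omega : 0 < x)
      · push_cast
        linarith
    · filter_upwards [eventually_ge_atTop 3] with x hx
      have h4 := llog_pos x hx
      have h5 := log_gt_one x hx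
      rw [div_le_iff₀ h4]
      have h6 := ll_upper x hx
      have h7 : 1 / (x * Real.log x) ≤ 1 := by
        have h8 : (3 : ℝ) ≤ x := by exact_mod_cast hx
        rw [div_le_one (by positivity)]
        nlinarith
      have h9 : (1 + 1 / Real.log (Real.log x)) * Real.log (Real.log x) = Real.log (Real.log x) + 1 := by
        field_simp
      rw [h9]
      linarith
  have h5 := (h.mul h1).mul h2
  rw [one_mul, mul_one] at h5
  refine h5.congr' ?_
  have h6 : ∀ᶠ x : ℕ in atTop, 0 < G M (fun _ => 0) (x + 1) :=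
    (tendsto_add_atTop_nat 1).eventually ((G_zero_atTop M hM).eventually_gt_atTop 0)
  filter_upwards [eventually_ge_atTop 3, h6] with x hx hx'
  have h4 := llog_pos x hx
  have h5 := llog_pos (x + 1) (by omega)
  simp only [Function.comp_apply]
  field_simp

theorem part_lil [IsProbabilityMeasure P] (A : ℕ → Set Ω) (hA : ∀ k, MeasurableSet (A k))
    (hind : iIndepSet A P) (M : ℕ) (hM : 0 < M) (hP : ∀ k, P.real (A k) = θ M k) :
    ∀ᵐ ω ∂P, (∃ᶠ n in atTop, Large A l3 ω n) ∧ ∀ ε : ℝ, 0 < ε → ∀ᶠ n in atTop,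
      g A ω n < Real.log (p A ω n) ^ 2 + (1 + ε) * l3 (p A ω n) * Real.log (p A ω n) := by
  have hψ1 : Tendsto (fun k : ℕ => l3 k / Real.log k) atTop (𝓝 0) := by
    simpa using l3_small 1
  have h1 : ∀ᵐ ω ∂P, ∀ j : ℕ, {n | Large A (fun k => (1 + 1 / ((j : ℝ) + 1)) * l3 k) ω n}.Finite := by
    rw [ae_all_iff]
    intro j
    exact part_conv A hA hind M hM hP _ (l3_small _) (G_c_bdd M hM _ (by positivity))
  filter_upwards [inf_A A hA hind M hM hP, part_div A hA hind M hM hP l3 hψ1 (G_l3_atTop M hM), h1]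
    with ω hinf h2 h3
  constructor
  · rw [Nat.frequently_atTop_iff_infinite]
    intro hfin
    have h4 : Tendsto (fun x : ℕ => ({n | Large A l3 ω n ∧ p A ω n ≤ x}.ncard : ℝ)) atTop atTop := by
      have hG1 : Tendsto (fun x : ℕ => G M l3 (x + 1)) atTop atTop :=
        (G_l3_atTop M hM).comp (tendsto_add_atTop_nat 1)
      refine (h2.pos_mul_atTop one_pos hG1).congr' ?_
      filter_upwards [hG1.eventually_gt_atTop 0] with x hx
      field_simp
    obtain ⟨x, hx⟩ := (h4.eventually_gt_atTop ({n | Large A l3 ω n}.ncard : ℝ)).exists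
    have h5 : {n | Large A l3 ω n ∧ p A ω n ≤ x}.ncard ≤ {n | Large A l3 ω n}.ncard :=
      Set.ncard_le_ncard (fun n hn => hn.1) hfin
    have h6 : ({n | Large A l3 ω n ∧ p A ω n ≤ x}.ncard : ℝ) ≤ ({n | Large A l3 ω n}.ncard : ℝ) := by
      exact_mod_cast h5
    linarith
  · intro ε hε
    obtain ⟨j, hj⟩ := exists_nat_one_div_lt hε
    have h4 : ∀ᶠ n in atTop, n ∉ {n | Large A (fun k => (1 + 1 / ((j : ℝ) + 1)) * l3 k) ω n} := by
      have := (h3 j).eventually_cofinite_notMem
      rwa [Nat.cofinite_eq_atTop] at this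
    have hp : Tendsto (p A ω) atTop atTop := (p_strictMono A ω hinf).tendsto_atTop
    filter_upwards [h4, hp.eventually (tendsto_l3.eventually_ge_atTop 0),
      hp.eventually (tendsto_L.eventually_ge_atTop 0)] with n hn hn1 hn2
    simp only [Set.mem_ofPred_eq, Large, not_le] at hn
    refine hn.trans_le ?_
    gcongr

end Pool.Agent.T2H32.CM
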