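import Mathlib

set_option autoImplicit false

/-! # A strong law for sums of indicators of events that are pairwise not positively correlated -/

open MeasureTheory ProbabilityTheory Filter Topology
open scoped ENNReal

namespace Pool.Agent.T2H32.CM

variable {Ω : Type*} [MeasurableSpace Ω] {P : Measure Ω}

/-- the number of the events `E 0, ..., E (n-1)` which occur -/
noncomputable def S (E : ℕ → Set Ω) (n : ℕ) (ω : Ω) : ℝ :=
  ∑ k ∈ Finset.range n, (E k).indicator (fun _ => (1 : ℝ)) ω

/-- its expectation -/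
noncomputable def mS (P : Measure Ω) (E : ℕ → Set Ω) (n : ℕ) : ℝ :=
  ∑ k ∈ Finset.range n, P.real (E k)

theorem S_mono (E : ℕ → Set Ω) (ω : Ω) : Monotone (fun n => S E n ω) := by
  refine monotone_nat_of_le_succ fun n => ?_
  simp only [S, Finset.sum_range_succ]
  have : 0 ≤ (E n).indicator (fun _ => (1 : ℝ)) ω := Set.indicator_nonneg (fun _ _ => zero_le_one) _
  linarith

theorem mS_mono (E : ℕ → Set Ω) : Monotone (mS P E) := by
  refine monotone_nat_of_le_succ fun n => ?_
  simp only [mS, Finset.sum_range_succ]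
  have : 0 ≤ P.real (E n) := measureReal_nonneg
  linarith

theorem mS_succ_le [IsProbabilityMeasure P] (E : ℕ → Set Ω) (n : ℕ) :
    mS P E (n + 1) ≤ mS P E n + 1 := by
  simp only [mS, Finset.sum_range_succ]
  have : P.real (E n) ≤ 1 := measureReal_le_one
  linarith

theorem S_nonneg (E : ℕ → Set Ω) (n : ℕ) (ω : Ω) : 0 ≤ S E n ω :=
  Finset.sum_nonneg fun _ _ => Set.indicator_nonneg (fun _ _ => zero_le_one) _

theorem memLp_S [IsProbabilityMeasure P] (E : ℕ → Set Ω) (hE : ∀ k, MeasurableSet (E k)) (n : ℕ) :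
    MemLp (S E n) 2 P := by
  unfold S
  exact memLp_finsetSum _ fun k _ => (memLp_const (1 : ℝ)).indicator (hE k)

theorem integral_S [IsProbabilityMeasure P] (E : ℕ → Set Ω) (hE : ∀ k, MeasurableSet (E k)) (n : ℕ) :
    ∫ ω, S E n ω ∂P = mS P E n := by
  unfold S mS
  rw [integral_finsetSum _ fun k _ => (integrable_const (1 : ℝ)).indicator (hE k)]
  refine Finset.sum_congr rfl fun k _ => ?_
  rw [integral_indicator_const _ (hE k)]
  simp

theorem var_S_le [IsProbabilityMeasure P] (E : ℕ → Set Ω) (hE : ∀ k, MeasurableSet (E k))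
    (hneg : ∀ k l, k < l → P.real (E k ∩ E l) ≤ P.real (E k) * P.real (E l)) (n : ℕ) :
    Var[S E n; P] ≤ mS P E n := by
  rw [variance_eq_sub (memLp_S E hE n)]
  have h1 : ∫ ω, (S E n ^ 2) ω ∂P = ∑ k ∈ Finset.range n, ∑ l ∈ Finset.range n, P.real (E k ∩ E l) := by
    have h2 : (fun ω => (S E n ^ 2) ω) = fun ω => ∑ k ∈ Finset.range n, ∑ l ∈ Finset.range n,
        (E k ∩ E l).indicator (fun _ => (1 : ℝ)) ω := by
      funext ω
      simp only [Pi.pow_apply, S, sq, Finset.sum_mul_sum]
      refine Finset.sum_congr rfl fun k _ => Finset.sum_congr rfl fun l _ => ?_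
      by_cases hk : ω ∈ E k <;> by_cases hl : ω ∈ E l <;> simp [hk, hl]
    have h3 : ∫ ω, (S E n ^ 2) ω ∂P = ∫ ω, ∑ k ∈ Finset.range n, ∑ l ∈ Finset.range n,
        (E k ∩ E l).indicator (fun _ => (1 : ℝ)) ω ∂P := by rw [← h2]
    rw [h3, integral_finsetSum _ fun k _ => integrable_finsetSum _ fun l _ =>
      (integrable_const (1 : ℝ)).indicator ((hE k).inter (hE l))]
    refine Finset.sum_congr rfl fun k _ => ?_
    rw [integral_finsetSum _ fun l _ =>
      (integrable_const (1 : ℝ)).indicator ((hE k).inter (hE l))]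
    refine Finset.sum_congr rfl fun l _ => ?_
    rw [integral_indicator_const _ ((hE k).inter (hE l))]
    simp
  have h4 : ∑ k ∈ Finset.range n, ∑ l ∈ Finset.range n, P.real (E k ∩ E l) ≤
      ∑ k ∈ Finset.range n, ∑ l ∈ Finset.range n,
        (P.real (E k) * P.real (E l) + if k = l then P.real (E k) else 0) := by
    refine Finset.sum_le_sum fun k _ => Finset.sum_le_sum fun l _ => ?_
    rcases lt_trichotomy k l with h | h | h
    · rw [if_neg h.ne, add_zero]
      exact hneg k l h
    · subst h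
      rw [if_pos rfl, Set.inter_self]
      have : 0 ≤ P.real (E k) * P.real (E k) := mul_self_nonneg _
      linarith
    · rw [if_neg h.ne', add_zero, Set.inter_comm, mul_comm]
      exact hneg l k h
  have h5 : ∑ k ∈ Finset.range n, ∑ l ∈ Finset.range n,
        (P.real (E k) * P.real (E l) + if k = l then P.real (E k) else 0) =
      mS P E n ^ 2 + mS P E n := by
    simp only [Finset.sum_add_distrib, mS, sq, Finset.sum_mul_sum]
    congr 1
    refine Finset.sum_congr rfl fun k hk => ?_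
    rw [Finset.sum_ite_eq, if_pos hk]
  rw [integral_S E hE n]
  calc _ ≤ (mS P E n ^ 2 + mS P E n) - mS P E n ^ 2 := by
        have := h1.le.trans (h4.trans h5.le)
        linarith
    _ = mS P E n := by ring

/-- **Strong law.** -/
theorem slln [IsProbabilityMeasure P] (E : ℕ → Set Ω) (hE : ∀ k, MeasurableSet (E k))
    (hneg : ∀ k l, k < l → P.real (E k ∩ E l) ≤ P.real (E k) * P.real (E l))
    (hdiv : Tendsto (mS P E) atTop atTop) :
    ∀ᵐ ω ∂P, Tendsto (fun n => S E n ω / mS P E n) atTop (𝓝 1) := by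
  -- the subsequence
  have hex : ∀ j : ℕ, ∃ n : ℕ, (j : ℝ) ^ 2 ≤ mS P E n := fun j =>
    (hdiv.eventually_ge_atTop _).exists
  classical
  set N : ℕ → ℕ := fun j => Nat.find (hex j) with hN
  have hN1 : ∀ j : ℕ, (j : ℝ) ^ 2 ≤ mS P E (N j) := fun j => Nat.find_spec (hex j)
  have hN2 : ∀ j : ℕ, mS P E (N j) ≤ (j : ℝ) ^ 2 + 1 := by
    intro j
    rcases Nat.eq_zero_or_pos (N j) with h0 | h0
    · rw [h0]
      simp only [mS, Finset.range_zero, Finset.sum_empty]
      positivity
    · have h1 : ¬ (j : ℝ) ^ 2 ≤ mS P E (N j - 1) :=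
        Nat.find_min (hex j) (m := N j - 1) (by change N j - 1 < N j; omega)
      have h2 := mS_succ_le (P := P) E (N j - 1)
      rw [Nat.sub_add_cancel h0] at h2
      push Not at h1
      linarith
  -- Chebyshev
  have hcheb : ∀ m : ℕ, 1 ≤ m → ∀ᵐ ω ∂P, ∀ᶠ j : ℕ in atTop,
      |S E (N j) ω - mS P E (N j)| < mS P E (N j) / m := by
    intro m hm
    have hm0 : (0 : ℝ) < m := by exact_mod_cast hm
    have hsum : ∑' j : ℕ, P {ω | mS P E (N j) / m ≤ |S E (N j) ω - mS P E (N j)|} ≠ ∞ := by
      have hb : ∀ j : ℕ, P {ω | mS P E (N j) / m ≤ |S E (N j) ω - mS P E (N j)|} ≤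
          ENNReal.ofReal (if j = 0 then 1 else (m : ℝ) ^ 2 * (1 / (j : ℝ) ^ 2)) := by
        intro j
        by_cases hj : j = 0
        · rw [if_pos hj, ENNReal.ofReal_one]
          exact prob_le_one
        · rw [if_neg hj]
          have hj0 : (0 : ℝ) < (j : ℝ) ^ 2 := by
            have : (0 : ℝ) < j := by exact_mod_cast Nat.pos_of_ne_zero hj
            positivity
          have ha : 0 < mS P E (N j) := hj0.trans_le (hN1 j)
          have h1 := meas_ge_le_variance_div_sq (memLp_S (P := P) E hE (N j))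
            (show 0 < mS P E (N j) / m by positivity)
          rw [integral_S E hE] at h1
          refine h1.trans (ENNReal.ofReal_le_ofReal ?_)
          have h2 := var_S_le (P := P) E hE hneg (N j)
          calc Var[S E (N j); P] / (mS P E (N j) / m) ^ 2
              ≤ mS P E (N j) / (mS P E (N j) / m) ^ 2 := by gcongr
            _ = (m : ℝ) ^ 2 * (1 / mS P E (N j)) := by
                field_simp
            _ ≤ (m : ℝ) ^ 2 * (1 / (j : ℝ) ^ 2) := by
                gcongr
                exact hN1 j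
      refine ne_top_of_le_ne_top ?_ (ENNReal.tsum_le_tsum hb)
      have hs : Summable (fun j : ℕ => if j = 0 then (1 : ℝ) else (m : ℝ) ^ 2 * (1 / (j : ℝ) ^ 2)) := by
        have h3 : Summable (fun j : ℕ => (m : ℝ) ^ 2 * (1 / (j : ℝ) ^ 2)) :=
          (Real.summable_one_div_nat_pow.2 (by norm_num)).mul_left _
        refine (summable_congr_cofinite ?_).2 h3
        rw [Filter.EventuallyEq, Filter.eventually_cofinite]
        refine (Set.finite_singleton 0).subset fun j hj => ?_
        by_contra h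
        exact hj (if_neg h)
      have := hs.tsum_ofReal_ne_top
      exact this
    have h4 := measure_limsup_atTop_eq_zero hsum
    rw [limsup_eq_iInf_iSup_of_nat] at h4
    have h5 : ∀ᵐ ω ∂P, ω ∉ ⨅ n, ⨆ i, ⨆ (_ : n ≤ i),
        {ω | mS P E (N i) / m ≤ |S E (N i) ω - mS P E (N i)|} := measure_eq_zero_iff_ae_notMem.1 h4
    filter_upwards [h5] with ω hω
    simp only [Set.iInf_eq_iInter, Set.iSup_eq_iUnion, Set.mem_iInter, Set.mem_iUnion,
      Set.mem_ofPred_eq, not_forall, not_exists, not_le] at hω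
    obtain ⟨n, hn⟩ := hω
    exact eventually_atTop.2 ⟨n, fun j hj => hn j hj⟩
  have hall : ∀ᵐ ω ∂P, ∀ m : ℕ, 1 ≤ m → ∀ᶠ j : ℕ in atTop,
      |S E (N j) ω - mS P E (N j)| < mS P E (N j) / m := by
    rw [ae_all_iff]
    intro m
    by_cases hm : 1 ≤ m
    · filter_upwards [hcheb m hm] with ω hω _
      exact hω
    · exact Eventually.of_forall fun ω h => absurd h hm
  filter_upwards [hall] with ω hω
  -- interpolation
  rw [Metric.tendsto_atTop]
  intro ε hε
  obtain ⟨m, hm⟩ := exists_nat_gt (max 1 (4 / ε))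
  have hm1 : (1 : ℝ) < m := (le_max_left _ _).trans_lt hm
  have hm2 : 4 / ε < m := (le_max_right _ _).trans_lt hm
  have hm0 : (0 : ℝ) < m := by linarith
  have hmn : 1 ≤ m := by exact_mod_cast hm1.le
  obtain ⟨J, hJ⟩ := eventually_atTop.1 (hω m hmn)
  -- consecutive ratios
  obtain ⟨J2, hJ2⟩ := exists_nat_gt (8 * (m : ℝ) + 8)
  set J3 := max J J2 + 1 with hJ3
  refine ⟨N J3, fun n hn => ?_⟩
  -- find `j` with `N j ≤ n < N (j+1)`
  have hNmono : Monotone N := by
    intro i j hij
    refine Nat.find_min' (hex i) (le_trans ?_ (hN1 j))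
    have : (i : ℝ) ≤ j := by exact_mod_cast hij
    gcongr
  have hNtop : Tendsto N atTop atTop := by
    rw [tendsto_atTop_atTop]
    intro b
    obtain ⟨j, hj⟩ := exists_nat_gt (mS P E b + 1)
    refine ⟨j + 1, fun i hi => ?_⟩
    by_contra hlt
    push Not at hlt
    have h1 := mS_mono (P := P) E hlt.le
    have h2 := hN1 i
    have h3 : (j : ℝ) + 1 ≤ i := by exact_mod_cast hi
    have h0 : 0 ≤ mS P E b := Finset.sum_nonneg fun _ _ => measureReal_nonneg
    nlinarith
  obtain ⟨j, hj1, hj2⟩ : ∃ j, N j ≤ n ∧ n < N (j + 1) ∧ J3 ≤ j := by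
    obtain ⟨i, hi⟩ := (hNtop.eventually_gt_atTop n).exists
    have hne : ∃ i, n < N i := ⟨i, hi⟩
    have hs := Nat.find_spec hne
    have hpos : J3 < Nat.find hne := by
      by_contra hcon
      push Not at hcon
      have := hNmono hcon
      omega
    refine ⟨Nat.find hne - 1, ?_, ?_, by omega⟩
    · have := Nat.find_min hne (m := Nat.find hne - 1) (by omega)
      omega
    · rw [Nat.sub_add_cancel (by omega)]
      exact hs
  obtain ⟨hj2, hj3⟩ := hj2
  have e1 := hJ j (by omega)
  have e2 := hJ (j + 1) (by omega)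
  rw [abs_lt] at e1 e2
  have a1 := hN1 j
  have a2 := hN2 j
  have b1 := hN1 (j + 1)
  have b2 := hN2 (j + 1)
  have hjR : (8 * (m : ℝ) + 8) < j := hJ2.trans_le (by
    have : J2 ≤ j := by omega
    exact_mod_cast this)
  push_cast at b1 b2
  have s1 : S E (N j) ω ≤ S E n ω := S_mono E ω hj1
  have s2 : S E n ω ≤ S E (N (j + 1)) ω := S_mono E ω hj2.le
  have t1 : mS P E (N j) ≤ mS P E n := mS_mono E hj1
  have t2 : mS P E n ≤ mS P E (N (j + 1)) := mS_mono E hj2.le
  set a := mS P E (N j)
  set b := mS P E (N (j + 1))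
  set c := mS P E n
  have hapos : 0 < a := by nlinarith
  have hcpos : 0 < c := by linarith
  -- `b ≤ a (1 + 1/m)`
  have hba : b ≤ a * (1 + 1 / m) := by
    have h1 : ((j : ℝ) + 1) ^ 2 + 1 ≤ (j : ℝ) ^ 2 * (1 + 1 / m) := by
      have : 2 * (j : ℝ) + 2 ≤ (j : ℝ) ^ 2 / m := by
        rw [le_div_iff₀ hm0]
        nlinarith
      calc ((j : ℝ) + 1) ^ 2 + 1 = (j : ℝ) ^ 2 + (2 * j + 2) := by ring
        _ ≤ (j : ℝ) ^ 2 + (j : ℝ) ^ 2 / m := by linarith
        _ = _ := by ring
    have h2 : (j : ℝ) ^ 2 * (1 + 1 / m) ≤ a * (1 + 1 / m) := by gcongr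
    linarith
  have hdef1 : a / m = a * (1 / m) := by ring
  have hdef2 : b / m = b * (1 / m) := by ring
  rw [hdef1] at e1
  rw [hdef2] at e2
  set u : ℝ := 1 / m with hu
  have hu0 : 0 < u := by positivity
  have hu1 : u ≤ 1 := by rw [hu, div_le_one hm0]; exact hm1.le
  have huε : u < ε / 4 := by
    rw [hu, div_lt_iff₀ hm0]
    rw [div_lt_iff₀ hε] at hm2
    linarith
  rw [Real.dist_eq, abs_lt]
  constructor
  · have h1 : (1 - 2 * u) * c ≤ S E n ω := by
      have h2 : c ≤ a * (1 + u) := t2.trans hba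
      have h3 : a * (1 - u) ≤ S E n ω := by linarith [e1.1]
      rcases le_or_gt 0 (1 - 2 * u) with h4 | h4
      · have h5 : (1 - 2 * u) * (a * (1 + u)) ≤ a * (1 - u) := by
          have h6 : 0 ≤ a * u ^ 2 := by positivity
          have h7 : (1 - 2 * u) * (a * (1 + u)) = a * (1 - u) - 2 * (a * u ^ 2) := by ring
          linarith
        exact (mul_le_mul_of_nonneg_left h2 h4).trans (h5.trans h3)
      · have h5 := S_nonneg E n ω
        have h6 : (1 - 2 * u) * c ≤ 0 := mul_nonpos_of_nonpos_of_nonneg h4.le hcpos.le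
        linarith
    have h2 : 1 - 2 * u ≤ S E n ω / c := by
      rw [le_div_iff₀ hcpos]
      exact h1
    linarith
  · have h1 : S E n ω ≤ (1 + 3 * u) * c := by
      have h2 : S E n ω ≤ b * (1 + u) := by linarith [e2.2]
      have h3 : b * (1 + u) ≤ (a * (1 + u)) * (1 + u) :=
        mul_le_mul_of_nonneg_right hba (by linarith)
      have h4 : (a * (1 + u)) * (1 + u) ≤ (1 + 3 * u) * a := by
        have h6 : 0 ≤ a * (u * (1 - u)) :=
          mul_nonneg hapos.le (mul_nonneg hu0.le (sub_nonneg.2 hu1))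
        have h7 : (1 + 3 * u) * a - (a * (1 + u)) * (1 + u) = a * (u * (1 - u)) := by ring
        linarith
      have h5 : (1 + 3 * u) * a ≤ (1 + 3 * u) * c :=
        mul_le_mul_of_nonneg_left t1 (by linarith)
      linarith
    have h2 : S E n ω / c ≤ 1 + 3 * u := by
      rw [div_le_iff₀ hcpos]
      exact h1
    linarith

end Pool.Agent.T2H32.CM
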