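import Pool.Agent.T2H32.CM.Asym
import Pool.Agent.T2H32.CM.Slln

set_option autoImplicit false

/-! # The events `k is a random prime and the next m(k) integers are not` -/

open MeasureTheory ProbabilityTheory Filter Topology
open scoped ENNReal

namespace Pool.Agent.T2H32.CM

variable {Ω : Type*}

/-- `k` is a random prime and the next `m ψ k` integers are not -/
def E (A : ℕ → Set Ω) (ψ : ℕ → ℝ) (k : ℕ) : Set Ω :=
  A k ∩ ⋂ j ∈ Finset.Ioc k (k + m ψ k), (A j)ᶜ

open Classical in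
/-- the factors -/
def B (A : ℕ → Set Ω) (k i : ℕ) : Set Ω := if i = k then A i else (A i)ᶜ

theorem E_eq (A : ℕ → Set Ω) (ψ : ℕ → ℝ) (k : ℕ) :
    E A ψ k = ⋂ i ∈ Finset.Icc k (k + m ψ k), B A k i := by
  ext ω
  simp only [E, B, Set.mem_inter_iff, Set.mem_iInter, Finset.mem_Icc, Finset.mem_Ioc]
  constructor
  · rintro ⟨h1, h2⟩ i hi
    by_cases h : i = k
    · rw [if_pos h, h]
      exact h1
    · rw [if_neg h]
      exact h2 i ⟨by omega, hi.2⟩
  · intro h
    constructor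
    · have := h k ⟨le_rfl, by omega⟩
      rwa [if_pos rfl] at this
    · intro j hj
      have := h j ⟨hj.1.le, hj.2⟩
      rwa [if_neg (by omega)] at this

theorem disj (A : ℕ → Set Ω) (ψ : ℕ → ℝ) (k l : ℕ) (hkl : k < l) (h : l ≤ k + m ψ k) :
    E A ψ k ∩ E A ψ l = ∅ := by
  rw [Set.eq_empty_iff_forall_notMem]
  rintro ω ⟨⟨-, h1⟩, ⟨h2, -⟩⟩
  simp only [Set.mem_iInter, Finset.mem_Ioc] at h1
  exact h1 l ⟨hkl, h⟩ h2

variable [MeasurableSpace Ω] {P : Measure Ω}

theorem measurable_E (A : ℕ → Set Ω) (hA : ∀ k, MeasurableSet (A k)) (ψ : ℕ → ℝ) (k : ℕ) :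
    MeasurableSet (E A ψ k) :=
  (hA k).inter (Finset.measurableSet_biInter _ fun j _ => (hA j).compl)

omit [MeasurableSpace Ω] in
theorem gen_B (A : ℕ → Set Ω) (k i : ℕ) :
    @MeasurableSet _ (MeasurableSpace.generateFrom {A i}) (B A k i) := by
  have h : @MeasurableSet _ (MeasurableSpace.generateFrom {A i}) (A i) :=
    MeasurableSpace.measurableSet_generateFrom rfl
  unfold B
  split_ifs
  · exact h
  · exact h.compl

theorem real_E [IsProbabilityMeasure P] (A : ℕ → Set Ω) (hA : ∀ k, MeasurableSet (A k))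
    (hind : iIndepSet A P) (M : ℕ) (hP : ∀ k, P.real (A k) = θ M k) (ψ : ℕ → ℝ) (k : ℕ) :
    P.real (E A ψ k) = θ M k * ∏ j ∈ Finset.Ioc k (k + m ψ k), (1 - θ M j) := by
  have h := (iIndepSet_iff A P).1 hind (Finset.Icc k (k + m ψ k)) (f := B A k)
    (fun i _ => gen_B A k i)
  rw [← E_eq] at h
  rw [measureReal_def, h, ENNReal.toReal_prod]
  have e : Finset.Icc k (k + m ψ k) = insert k (Finset.Ioc k (k + m ψ k)) := by
    ext x
    simp only [Finset.mem_Icc, Finset.mem_insert, Finset.mem_Ioc]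
    omega
  rw [e, Finset.prod_insert (by simp)]
  congr 1
  · rw [B, if_pos rfl, ← hP, measureReal_def]
  · refine Finset.prod_congr rfl fun j hj => ?_
    rw [Finset.mem_Ioc] at hj
    rw [B, if_neg (by omega), ← hP, ← measureReal_def, probReal_compl_eq_one_sub (hA j)]

theorem inter_E [IsProbabilityMeasure P] (A : ℕ → Set Ω)
    (hind : iIndepSet A P) (ψ : ℕ → ℝ) (k l : ℕ) (hkl : k + m ψ k < l) :
    P.real (E A ψ k ∩ E A ψ l) = P.real (E A ψ k) * P.real (E A ψ l) := by
  classical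
  set s1 := Finset.Icc k (k + m ψ k) with hs1
  set s2 := Finset.Icc l (l + m ψ l) with hs2
  have hdis : Disjoint s1 s2 := by
    rw [Finset.disjoint_left]
    intro x hx hx'
    rw [hs1, Finset.mem_Icc] at hx
    rw [hs2, Finset.mem_Icc] at hx'
    omega
  set f : ℕ → Set Ω := fun i => if i ≤ k + m ψ k then B A k i else B A l i with hf
  have h0 : ∀ i, @MeasurableSet _ (MeasurableSpace.generateFrom {A i}) (f i) := by
    intro i
    simp only [hf]
    split_ifs
    · exact gen_B A k i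
    · exact gen_B A l i
  have h := (iIndepSet_iff A P).1 hind (s1 ∪ s2) (f := f) (fun i _ => h0 i)
  have h1 := (iIndepSet_iff A P).1 hind s1 (f := B A k) (fun i _ => gen_B A k i)
  have h2 := (iIndepSet_iff A P).1 hind s2 (f := B A l) (fun i _ => gen_B A l i)
  have e1 : ∀ i ∈ s1, f i = B A k i := by
    intro i hi
    rw [hs1, Finset.mem_Icc] at hi
    simp only [hf]
    rw [if_pos hi.2]
  have e2 : ∀ i ∈ s2, f i = B A l i := by
    intro i hi
    rw [hs2, Finset.mem_Icc] at hi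
    simp only [hf]
    rw [if_neg (by omega)]
  have e3 : E A ψ k ∩ E A ψ l = ⋂ i ∈ s1 ∪ s2, f i := by
    rw [E_eq, E_eq, ← Set.iInter₂_congr e1, ← Set.iInter₂_congr e2]
    ext ω
    simp only [Set.mem_inter_iff, Set.mem_iInter, Finset.mem_union]
    constructor
    · rintro ⟨h1, h2⟩ i (hi | hi)
      · exact h1 i hi
      · exact h2 i hi
    · intro h
      exact ⟨fun i hi => h i (Or.inl hi), fun i hi => h i (Or.inr hi)⟩
  rw [e3, measureReal_def, h, Finset.prod_union hdis, ENNReal.toReal_mul, measureReal_def,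
    measureReal_def, E_eq, E_eq, h1, h2]
  congr 2
  · exact Finset.prod_congr rfl fun i hi => by rw [e1 i hi]
  · exact Finset.prod_congr rfl fun i hi => by rw [e2 i hi]

theorem hneg_E [IsProbabilityMeasure P] (A : ℕ → Set Ω)
    (hind : iIndepSet A P) (ψ : ℕ → ℝ) (k l : ℕ) (hkl : k < l) :
    P.real (E A ψ k ∩ E A ψ l) ≤ P.real (E A ψ k) * P.real (E A ψ l) := by
  rcases le_or_gt l (k + m ψ k) with h | h
  · rw [disj A ψ k l hkl h, measureReal_empty]
    positivity
  · exact (inter_E A hind ψ k l h).le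

/-- the main term of the probability of `E` -/
noncomputable def b (M : ℕ) (ψ : ℕ → ℝ) (k : ℕ) : ℝ :=
  if 3 ≤ k then χ M k * (μ M * Real.exp (-(μ M / 2))) * (Real.exp (-ψ k) / (k * Real.log k)) else 0

theorem b_nonneg (M : ℕ) (hM : 0 < M) (ψ : ℕ → ℝ) (k : ℕ) : 0 ≤ b M ψ k := by
  unfold b
  have h1 := μ_one_le M hM
  have h2 := χ_nonneg M k
  have h3 := Real.log_natCast_nonneg k
  split_ifs
  · positivity
  · exact le_rfl

/-- the ratio -/
noncomputable def u (M : ℕ) (ψ : ℕ → ℝ) (k : ℕ) : ℝ :=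
  (∏ j ∈ Finset.Ioc k (k + m ψ k), (1 - θ M j)) * Real.exp (Real.log k + ψ k + μ M / 2)

theorem real_E_eq [IsProbabilityMeasure P] (A : ℕ → Set Ω) (hA : ∀ k, MeasurableSet (A k))
    (hind : iIndepSet A P) (M : ℕ) (hM : 0 < M) (hP : ∀ k, P.real (A k) = θ M k) (ψ : ℕ → ℝ) :
    ∀ᶠ k : ℕ in atTop, P.real (E A ψ k) = b M ψ k * u M ψ k := by
  filter_upwards [tendsto_L.eventually_ge_atTop (2 * μ M), eventually_ge_atTop 3] with k hL hk
  have h1 := μ_one_le M hM
  have hk1 : (0 : ℝ) < k := by exact_mod_cast (by omega : 0 < k)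
  have hL0 : 0 < Real.log k := by linarith
  rw [real_E A hA hind M hP, θ_eq M k hM hk hL, b, if_pos hk, u, Real.exp_add, Real.exp_add,
    Real.exp_log hk1, Real.exp_neg, Real.exp_neg]
  have h2 := Real.exp_pos (ψ k)
  have h3 := Real.exp_pos (μ M / 2)
  field_simp

theorem real_E_le [IsProbabilityMeasure P] (A : ℕ → Set Ω) (hA : ∀ k, MeasurableSet (A k))
    (hind : iIndepSet A P) (M : ℕ) (hM : 0 < M) (hP : ∀ k, P.real (A k) = θ M k) (ψ : ℕ → ℝ)
    (hψ : Tendsto (fun k : ℕ => ψ k / Real.log k) atTop (𝓝 0)) :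
    (fun k => P.real (E A ψ k) - b M ψ k) =o[atTop] b M ψ := by
  have h1 := tendsto_prod ψ hψ M hM
  have h2 : Tendsto (fun k => u M ψ k - 1) atTop (𝓝 0) := by
    have := h1.sub_const 1
    rw [sub_self] at this
    exact this
  have h3 : (fun k => b M ψ k * (u M ψ k - 1)) =o[atTop] (fun k => b M ψ k * 1) :=
    (Asymptotics.isBigO_refl _ _).mul_isLittleO ((Asymptotics.isLittleO_one_iff ℝ).2 h2)
  simp only [mul_one] at h3
  refine h3.congr' ?_ EventuallyEq.rfl
  filter_upwards [real_E_eq A hA hind M hM hP ψ] with k hk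
  rw [hk]
  ring

/-- the expected number -/
noncomputable def G (M : ℕ) (ψ : ℕ → ℝ) (n : ℕ) : ℝ := ∑ k ∈ Finset.range n, b M ψ k

theorem G_mono (M : ℕ) (hM : 0 < M) (ψ : ℕ → ℝ) : Monotone (G M ψ) := by
  refine monotone_nat_of_le_succ fun n => ?_
  simp only [G, Finset.sum_range_succ]
  have := b_nonneg M hM ψ n
  linarith

theorem mS_equiv [IsProbabilityMeasure P] (A : ℕ → Set Ω) (hA : ∀ k, MeasurableSet (A k))
    (hind : iIndepSet A P) (M : ℕ) (hM : 0 < M) (hP : ∀ k, P.real (A k) = θ M k) (ψ : ℕ → ℝ)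
    (hψ : Tendsto (fun k : ℕ => ψ k / Real.log k) atTop (𝓝 0)) (hG : Tendsto (G M ψ) atTop atTop) :
    Tendsto (fun n => mS P (E A ψ) n / G M ψ n) atTop (𝓝 1) := by
  have h1 := (real_E_le A hA hind M hM hP ψ hψ).sum_range (fun k => b_nonneg M hM ψ k) hG
  have h2 := h1.tendsto_div_nhds_zero
  have h3 := h2.add_const 1
  rw [zero_add] at h3
  refine h3.congr' ?_
  filter_upwards [hG.eventually_gt_atTop 0] with n hn
  rw [Finset.sum_sub_distrib]
  unfold mS
  have : G M ψ n = ∑ k ∈ Finset.range n, b M ψ k := rfl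
  rw [← this]
  field_simp
  ring

/-- **The strong law for the events.** -/
theorem strong_law [IsProbabilityMeasure P] (A : ℕ → Set Ω) (hA : ∀ k, MeasurableSet (A k))
    (hind : iIndepSet A P) (M : ℕ) (hM : 0 < M) (hP : ∀ k, P.real (A k) = θ M k) (ψ : ℕ → ℝ)
    (hψ : Tendsto (fun k : ℕ => ψ k / Real.log k) atTop (𝓝 0)) (hG : Tendsto (G M ψ) atTop atTop) :
    ∀ᵐ ω ∂P, Tendsto (fun n => S (E A ψ) n ω / G M ψ n) atTop (𝓝 1) := by
  have h1 := mS_equiv A hA hind M hM hP ψ hψ hG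
  have hm : Tendsto (mS P (E A ψ)) atTop atTop := by
    have h2 : Tendsto (fun n => (mS P (E A ψ) n / G M ψ n) * G M ψ n) atTop atTop :=
      h1.pos_mul_atTop one_pos hG
    refine h2.congr' ?_
    filter_upwards [hG.eventually_gt_atTop 0] with n hn
    field_simp
  filter_upwards [slln (P := P) (E A ψ) (measurable_E A hA ψ) (hneg_E A hind ψ) hm] with ω hω
  have h3 := hω.mul h1
  rw [one_mul] at h3
  refine h3.congr' ?_
  filter_upwards [hG.eventually_gt_atTop 0, hm.eventually_gt_atTop 0] with n hn hn'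
  field_simp

/-- **The convergence part.** -/
theorem conv_part [IsProbabilityMeasure P] (A : ℕ → Set Ω) (hA : ∀ k, MeasurableSet (A k))
    (hind : iIndepSet A P) (M : ℕ) (hM : 0 < M) (hP : ∀ k, P.real (A k) = θ M k) (ψ : ℕ → ℝ)
    (hψ : Tendsto (fun k : ℕ => ψ k / Real.log k) atTop (𝓝 0)) (hG : ¬ Tendsto (G M ψ) atTop atTop) :
    ∀ᵐ ω ∂P, {k | ω ∈ E A ψ k}.Finite := by
  have hs : Summable (b M ψ) := by
    by_contra h
    exact hG ((not_summable_iff_tendsto_nat_atTop_of_nonneg (b_nonneg M hM ψ)).1 h)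
  have h1 : (fun k => P.real (E A ψ k)) =O[atTop] b M ψ := by
    have := (real_E_le A hA hind M hM hP ψ hψ).isBigO.add (Asymptotics.isBigO_refl (b M ψ) atTop)
    simpa using this
  have h2 : Summable (fun k => P.real (E A ψ k)) := summable_of_isBigO_nat hs h1
  have h3 : ∑' k, P (E A ψ k) ≠ ∞ := by
    have h4 := h2.tsum_ofReal_ne_top
    simpa [measureReal_def, ENNReal.ofReal_toReal, measure_ne_top] using h4
  exact ae_finite_setOfPred_mem h3

end Pool.Agent.T2H32.CM
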