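import Pool.Agent.T2H32.CM.Model

set_option autoImplicit false

/-! # From the events to the gaps between consecutive random primes -/

open MeasureTheory ProbabilityTheory Filter Topology
open scoped ENNReal

namespace Pool.Agent.T2H32.CM

variable {Ω : Type*}

/-- the random primes in increasing order -/
noncomputable def p (A : ℕ → Set Ω) (ω : Ω) (n : ℕ) : ℕ := Nat.nth (fun k => ω ∈ A k) n

/-- the number of integers strictly between the random primes number `n` and `n + 1` -/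
noncomputable def g (A : ℕ → Set Ω) (ω : Ω) (n : ℕ) : ℝ := (p A ω (n + 1) : ℝ) - p A ω n - 1

/-- `g n ≥ (log p n) ^ 2 + ψ (p n) log p n` -/
def Large (A : ℕ → Set Ω) (ψ : ℕ → ℝ) (ω : Ω) (n : ℕ) : Prop :=
  Real.log (p A ω n) ^ 2 + ψ (p A ω n) * Real.log (p A ω n) ≤ g A ω n

variable (A : ℕ → Set Ω) (ψ : ℕ → ℝ) (ω : Ω) (hinf : {k | ω ∈ A k}.Infinite)
include hinf

theorem p_strictMono : StrictMono (p A ω) := Nat.nth_strictMono hinf

theorem p_mem (n : ℕ) : ω ∈ A (p A ω n) := Nat.nth_mem_of_infinite hinf n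

theorem exists_p (k : ℕ) (hk : ω ∈ A k) : ∃ n, p A ω n = k := by
  have := Nat.range_nth_of_infinite hinf
  have h : k ∈ Set.range (Nat.nth (fun k => ω ∈ A k)) := by
    rw [this]
    exact hk
  exact h

theorem mem_E_iff (n : ℕ) : ω ∈ E A ψ (p A ω n) ↔ Large A ψ ω n := by
  have hlt : p A ω n < p A ω (n + 1) := p_strictMono A ω hinf (Nat.lt_succ_self n)
  have hg : g A ω n = ((p A ω (n + 1) - p A ω n - 1 : ℕ) : ℝ) := by
    unfold g
    rw [Nat.cast_sub (by omega), Nat.cast_sub hlt.le]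
    simp
  have key : Large A ψ ω n ↔ m ψ (p A ω n) ≤ p A ω (n + 1) - p A ω n - 1 := by
    unfold Large
    rw [hg, m, Nat.ceil_le]
  rw [key]
  constructor
  · rintro ⟨-, h⟩
    by_contra hcon
    push Not at hcon
    simp only [Set.mem_iInter, Finset.mem_Ioc] at h
    exact h (p A ω (n + 1)) ⟨hlt, by omega⟩ (p_mem A ω hinf _)
  · intro h
    refine ⟨p_mem A ω hinf n, ?_⟩
    simp only [Set.mem_iInter, Finset.mem_Ioc]
    rintro j ⟨hj1, hj2⟩ hj
    obtain ⟨i, rfl⟩ := exists_p A ω hinf j hj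
    have h1 : n < i := (p_strictMono A ω hinf).lt_iff_lt.1 hj1
    have h2 : i < n + 1 := (p_strictMono A ω hinf).lt_iff_lt.1 (by omega : p A ω i < p A ω (n + 1))
    omega

theorem image_p (s : Set ℕ) : p A ω '' {n | Large A ψ ω n ∧ p A ω n ∈ s} = {k | ω ∈ E A ψ k ∧ k ∈ s} := by
  ext k
  simp only [Set.mem_image, Set.mem_ofPred_eq]
  constructor
  · rintro ⟨n, ⟨h1, h2⟩, rfl⟩
    exact ⟨(mem_E_iff A ψ ω hinf n).2 h1, h2⟩
  · rintro ⟨h1, h2⟩
    obtain ⟨n, rfl⟩ := exists_p A ω hinf k h1.1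
    exact ⟨n, ⟨(mem_E_iff A ψ ω hinf n).1 h1, h2⟩, rfl⟩

theorem count_eq (x : ℕ) :
    ({n | Large A ψ ω n ∧ p A ω n ≤ x}.ncard : ℝ) = S (E A ψ) (x + 1) ω := by
  classical
  have h1 : {n | Large A ψ ω n ∧ p A ω n ≤ x}.ncard = {k | ω ∈ E A ψ k ∧ k ≤ x}.ncard := by
    rw [← Set.ncard_image_of_injective _ (p_strictMono A ω hinf).injective]
    congr 1
    exact image_p A ψ ω hinf {k | k ≤ x}
  have h2 : {k | ω ∈ E A ψ k ∧ k ≤ x} = ((Finset.range (x + 1)).filter (fun k => ω ∈ E A ψ k) : Finset ℕ) := by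
    ext k
    simp only [Set.mem_ofPred_eq, Finset.coe_filter, Finset.mem_range]
    constructor
    · rintro ⟨h1, h2⟩
      exact ⟨by omega, h1⟩
    · rintro ⟨h1, h2⟩
      exact ⟨h2, by omega⟩
  rw [h1, h2, Set.ncard_coe_finset, S, Finset.card_filter, Nat.cast_sum]
  refine Finset.sum_congr rfl fun k _ => ?_
  by_cases h : ω ∈ E A ψ k <;> simp [h]

theorem finite_iff : {n | Large A ψ ω n}.Finite ↔ {k | ω ∈ E A ψ k}.Finite := by
  have h := image_p A ψ ω hinf Set.univ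
  simp only [Set.mem_univ, and_true] at h
  rw [← h]
  exact (Set.finite_image_iff (p_strictMono A ω hinf).injective.injOn).symm

end Pool.Agent.T2H32.CM
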